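import Mathlib

set_option autoImplicit false

/-! A combinatorial lemma on sign tables. -/

namespace Pool.Agent.helper391_IR

open Finset
open scoped Classical

/-- a sum of `N` signs -/
theorem sign_sum {L : Type} [Fintype L] (B : L → ℤ) (hB : ∀ l, B l = 1 ∨ B l = -1) :
    ∑ l, B l = (Fintype.card L : ℤ) - 2 * ((univ.filter fun l => B l = -1).card : ℤ) := by
  have h1 : ∀ l, B l = 1 - 2 * (if B l = -1 then 1 else 0) := by
    intro l
    rcases hB l with h | h <;> rw [h] <;> norm_num
  rw [Finset.sum_congr rfl fun l _ => h1 l, Finset.sum_sub_distrib, ← Finset.mul_sum,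
    Finset.sum_boole]
  simp

/-- the row structure: one sign dominates with at most one exception -/
theorem row {L' : Type} [Fintype L'] (q : ℕ) (hq : 3 ≤ q) (hqodd : Odd q)
    (hL' : Fintype.card L' = q + 1) (A : ℤ) (hA : A = 1 ∨ A = -1) (S : L' → ℤ)
    (hS : ∀ l, S l = 1 ∨ S l = -1) (h : (q : ℤ) ∣ A - ∑ l, S l) :
    ∃ M : ℤ, (M = 1 ∨ M = -1) ∧ ∑ l, S l = q * M + A ∧
      (univ.filter fun l => S l ≠ M).card ≤ 1 := by
  have h1 := sign_sum S hS
  set N := (univ.filter fun l => S l = -1).card with hN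
  have hNle : N ≤ q + 1 := by
    rw [← hL', ← Finset.card_univ]; exact Finset.card_filter_le _ _
  rw [hL'] at h1
  obtain ⟨c, hc⟩ := h
  obtain ⟨r, hr⟩ := hqodd
  have hqz : (3 : ℤ) ≤ q := by exact_mod_cast hq
  have hNz : (N : ℤ) ≤ q + 1 := by exact_mod_cast hNle
  have hN0 : (0 : ℤ) ≤ N := by positivity
  have hrz : (q : ℤ) = 2 * r + 1 := by exact_mod_cast hr
  rw [h1] at hc
  push_cast at hc
  -- the quotient is odd and small
  have hc3 : c = 1 ∨ c = -1 := by
    have hup : c < 2 := by
      by_contra hcon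
      push Not at hcon
      have : (q : ℤ) * 2 ≤ q * c := mul_le_mul_of_nonneg_left hcon (by linarith)
      rcases hA with h | h <;> rw [h] at hc <;> linarith
    have hlo : -2 < c := by
      by_contra hcon
      push Not at hcon
      have : (q : ℤ) * c ≤ q * (-2) := mul_le_mul_of_nonneg_left hcon (by linarith)
      rcases hA with h | h <;> rw [h] at hc <;> linarith
    have h0 : c ≠ 0 := by
      rintro rfl
      rw [mul_zero] at hc
      rcases hA with h | h <;> rw [h, hrz] at hc <;> omega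
    omega
  refine ⟨-c, by rcases hc3 with h | h <;> rw [h] <;> norm_num, ?_, ?_⟩
  · rw [h1]; push_cast; linarith
  · rcases hc3 with h | h
    · rw [h] at hc ⊢
      -- minus signs dominate
      have h2 : (univ.filter fun l => S l ≠ -1).card + N = q + 1 := by
        rw [hN, ← hL', ← Finset.card_univ, ← Finset.card_filter_add_card_filter_not
          (s := univ) (fun l => S l = -1)]
        ring
      rcases hA with h' | h' <;> rw [h'] at hc <;> omega
    · rw [h] at hc ⊢
      have h2 : (univ.filter fun l => S l ≠ - -1).card = N := by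
        rw [hN]
        congr 1
        ext l
        simp only [Finset.mem_filter, Finset.mem_univ, true_and, neg_neg]
        rcases hS l with h' | h' <;> rw [h'] <;> norm_num
      rw [h2]
      rcases hA with h' | h' <;> rw [h'] at hc <;> omega

theorem table {L L' : Type} [Fintype L] [Fintype L'] (p q : ℕ) (hp : 3 ≤ p) (hpq : p + 2 ≤ q)
    (hqodd : Odd q) (hL : Fintype.card L = p + 1) (hL' : Fintype.card L' = q + 1)
    (A : L → ℤ) (hA : ∀ l, A l = 1 ∨ A l = -1) (B : L' → ℤ) (hB : ∀ l, B l = 1 ∨ B l = -1)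
    (S : L → L' → ℤ) (hS : ∀ l l', S l l' = 1 ∨ S l l' = -1) (n : ℤ)
    (hn1 : (p : ℤ) ∣ n - 1) (hn2 : (q : ℤ) ∣ n + 1) (hR0 : (p : ℤ) ∣ n - ∑ l, A l)
    (hC0 : (q : ℤ) ∣ n - ∑ l', B l') (hR : ∀ l', (p : ℤ) ∣ B l' - ∑ l, S l l')
    (hC : ∀ l, (q : ℤ) ∣ A l - ∑ l', S l l') : False := by
  have hq : 3 ≤ q := by omega
  have hrow := fun l => row q hq hqodd hL' (A l) (hA l) (S l) (hS l) (hC l)
  choose M hM hsum hexc using hrow
  -- clean columns
  set Bad : Finset L' := univ.biUnion fun l : L => univ.filter fun l' => S l l' ≠ M l with hBad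
  have hBadcard : Bad.card ≤ p + 1 := by
    calc Bad.card ≤ ∑ l : L, (univ.filter fun l' => S l l' ≠ M l).card := Finset.card_biUnion_le
      _ ≤ ∑ _l : L, 1 := Finset.sum_le_sum fun l _ => hexc l
      _ = p + 1 := by rw [Finset.sum_const, Finset.card_univ, hL]; simp
  have hclean : 1 < (Badᶜ).card := by
    rw [Finset.card_compl, hL']
    omega
  obtain ⟨c1, hc1, c2, hc2, hc12⟩ := Finset.one_lt_card.1 hclean
  have hcl : ∀ c, c ∈ Badᶜ → ∀ l, S l c = M l := by
    intro c hc l
    by_contra hne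
    rw [Finset.mem_compl] at hc
    apply hc
    rw [hBad, Finset.mem_biUnion]
    exact ⟨l, Finset.mem_univ _, Finset.mem_filter.2 ⟨Finset.mem_univ _, hne⟩⟩
  have hcB : ∀ c, c ∈ Badᶜ → (p : ℤ) ∣ B c - ∑ l, M l := by
    intro c hc
    have := hR c
    rwa [Finset.sum_congr rfl fun l _ => hcl c hc l] at this
  have hpz : (3 : ℤ) ≤ p := by exact_mod_cast hp
  have hp2 : ¬ (p : ℤ) ∣ 2 := fun h => by
    have := Int.le_of_dvd (by norm_num) h
    linarith
  have hsame : B c1 = B c2 := by
    have h1 : (p : ℤ) ∣ B c1 - B c2 := by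
      have := Int.dvd_sub (hcB c1 hc1) (hcB c2 hc2)
      have e : B c1 - ∑ l, M l - (B c2 - ∑ l, M l) = B c1 - B c2 := by ring
      rwa [e] at this
    rcases hB c1 with h | h <;> rcases hB c2 with h' | h' <;> rw [h, h'] <;> rw [h, h'] at h1
    · exact absurd (by simpa using h1) hp2
    · exfalso
      apply hp2
      have := (Int.dvd_neg).2 h1
      simpa using this
  -- the total sum modulo p
  have hT : (p : ℤ) ∣ ∑ l', B l' - ((q : ℤ) * B c1 + 1) := by
    have h1 : (p : ℤ) ∣ ∑ l', (B l' - ∑ l, S l l') := Finset.dvd_sum fun l' _ => hR l'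
    rw [Finset.sum_sub_distrib, Finset.sum_comm (s := univ (α := L')),
      Finset.sum_congr rfl fun l _ => hsum l, Finset.sum_add_distrib, ← Finset.mul_sum] at h1
    have h2 := (hcB c1 hc1).mul_left (q : ℤ)
    have e : ∑ l', B l' - ((q : ℤ) * B c1 + 1) =
        (∑ l', B l' - ((q : ℤ) * ∑ l, M l + ∑ l, A l)) - (q : ℤ) * (B c1 - ∑ l, M l) -
          (n - ∑ l, A l) + (n - 1) := by ring
    rw [e]
    exact Int.dvd_add (Int.dvd_sub (Int.dvd_sub h1 h2) hR0) hn1
  -- the row of the origin
  have hBsum := sign_sum B hB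
  set N := (univ.filter fun l => B l = -1).card with hN
  have hNle : N ≤ q + 1 := by
    rw [← hL', ← Finset.card_univ]; exact Finset.card_filter_le _ _
  rw [hL'] at hBsum
  have hqN : (q : ℤ) ∣ 2 * (N : ℤ) - 2 := by
    have h1 := Int.dvd_sub hn2 hC0
    rw [hBsum] at h1
    have e : n + 1 - (n - (((q + 1 : ℕ) : ℤ) - 2 * (N : ℤ))) = (q : ℤ) - (2 * (N : ℤ) - 2) := by
      push_cast; ring
    rw [e] at h1
    exact (Int.dvd_iff_dvd_of_dvd_sub h1).1 (dvd_refl _)
  have hN1 : N = 1 ∨ N = q + 1 := by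
    obtain ⟨r, hr⟩ := hqodd
    have hcop : IsCoprime (q : ℤ) 2 := by
      rw [hr]; push_cast
      exact ⟨1, -r, by ring⟩
    have h1 : (q : ℤ) ∣ (N : ℤ) - 1 := by
      apply hcop.dvd_of_dvd_mul_left
      have e : (2 : ℤ) * ((N : ℤ) - 1) = 2 * (N : ℤ) - 2 := by ring
      rw [e]; exact hqN
    obtain ⟨c, hc⟩ := h1
    have hqz : (3 : ℤ) ≤ q := by exact_mod_cast hq
    have hc2 : c < 2 := by
      by_contra hcon
      push Not at hcon
      have : (q : ℤ) * 2 ≤ q * c := mul_le_mul_of_nonneg_left hcon (by linarith)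
      have : (N : ℤ) ≤ q + 1 := by exact_mod_cast hNle
      linarith
    have hc0 : -1 < c := by
      by_contra hcon
      push Not at hcon
      have : (q : ℤ) * c ≤ q * (-1) := mul_le_mul_of_nonneg_left hcon (by linarith)
      have : (0 : ℤ) ≤ N := by positivity
      linarith
    have : c = 0 ∨ c = 1 := by omega
    rcases this with rfl | rfl
    · left; rw [mul_zero] at hc; omega
    · right; rw [mul_one] at hc; omega
  rcases hN1 with h | h
  · -- exactly one minus sign
    have hB1 : B c1 = 1 := by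
      by_contra hne
      have h1 : B c1 = -1 := (hB c1).resolve_left hne
      have h2 : B c2 = -1 := by rw [← hsame]; exact h1
      have h3 : 1 < N := by
        rw [hN]
        exact Finset.one_lt_card.2 ⟨c1, Finset.mem_filter.2 ⟨Finset.mem_univ _, h1⟩, c2,
          Finset.mem_filter.2 ⟨Finset.mem_univ _, h2⟩, hc12⟩
      omega
    rw [hB1, hBsum, h] at hT
    apply hp2
    have := (Int.dvd_neg).2 hT
    have e : -(((q + 1 : ℕ) : ℤ) - 2 * ((1 : ℕ) : ℤ) - ((q : ℤ) * 1 + 1)) = 2 := by
      push_cast; ring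
    rwa [e] at this
  · -- all signs are minus
    have hB1 : B c1 = -1 := by
      have h1 : (univ.filter fun l => B l = -1) = univ := by
        rw [← Finset.card_eq_iff_eq_univ, hL', ← h]
      have h2 : c1 ∈ (univ.filter fun l => B l = -1) := by rw [h1]; exact Finset.mem_univ _
      exact (Finset.mem_filter.1 h2).2
    rw [hB1, hBsum, h] at hT
    apply hp2
    have := (Int.dvd_neg).2 hT
    have e : -(((q + 1 : ℕ) : ℤ) - 2 * ((q + 1 : ℕ) : ℤ) - ((q : ℤ) * (-1) + 1)) = 2 := by
      push_cast; ring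
    rwa [e] at this

end Pool.Agent.helper391_IR
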