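import Mathlib
import Pool.Agent.R848.SICP.Aligned
import Pool.Agent.helper391_IR.Table

set_option autoImplicit false

/-! Torsion congruences for self-dual functions on `(ZMod m)^2`. -/

namespace Pool.Agent.helper391_IR

open Finset
open scoped BigOperators
open R848.SICP (rep cc rep_ne)

/-- a permutation of `p`-power order acting on a level set -/
theorem fix_card {α : Type} [Fintype α] [DecidableEq α] (p k : ℕ) [Fact p.Prime]
    (σ : Equiv.Perm α) (hσ : ∀ x, (σ ^ (p ^ k)) x = x) (g : α → ℤ) (hg : ∀ x, g (σ x) = g x)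
    (v : ℤ) :
    (p : ℤ) ∣ ((univ.filter fun x => g x = v).card : ℤ) -
      ((univ.filter fun x => σ x = x ∧ g x = v).card : ℤ) := by
  set τ : Equiv.Perm {x // g x = v} := σ.subtypePerm (fun x => by rw [hg]) with hτ
  have hpow : ∀ (N : ℕ) (x : {x // g x = v}), ((τ ^ N) x : α) = (σ ^ N) x := by
    intro N
    induction N with
    | zero => intro x; simp
    | succ N ih => intro x; rw [pow_succ, pow_succ, Equiv.Perm.mul_apply, Equiv.Perm.mul_apply, ih]; rfl
  have h1 : τ ^ (p ^ k) = 1 := by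
    ext x
    rw [hpow, hσ]
    rfl
  have h2 := Equiv.Perm.card_compl_support_modEq h1
  have h3 : τ.supportᶜ.card = (univ.filter fun x => σ x = x ∧ g x = v).card := by
    refine Finset.card_bij (fun x _ => (x : α)) ?_ ?_ ?_
    · intro x hx
      rw [Finset.mem_compl, Equiv.Perm.mem_support, not_not] at hx
      rw [Finset.mem_filter]
      exact ⟨mem_univ _, by conv_rhs => rw [← hx]
                            rfl, x.2⟩
    · intro x _ y _ h
      exact Subtype.ext h
    · intro x hx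
      rw [Finset.mem_filter] at hx
      refine ⟨⟨x, hx.2.2⟩, ?_, rfl⟩
      rw [Finset.mem_compl, Equiv.Perm.mem_support, not_not]
      exact Subtype.ext hx.2.1
  have h4 : Fintype.card {x // g x = v} = (univ.filter fun x => g x = v).card :=
    Fintype.card_subtype _
  rw [h3, h4] at h2
  have h5 := (Nat.modEq_iff_dvd.1 h2)
  exact h5

/-- sum of an invariant function -/
theorem fix_sum {α : Type} [Fintype α] [DecidableEq α] (p k : ℕ) [Fact p.Prime]
    (σ : Equiv.Perm α) (hσ : ∀ x, (σ ^ (p ^ k)) x = x) (g : α → ℤ) (hg : ∀ x, g (σ x) = g x) :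
    (p : ℤ) ∣ ∑ x, g x - ∑ x ∈ univ.filter (fun x => σ x = x), g x := by
  have h1 : ∑ x, g x = ∑ v ∈ univ.image g, v * ((univ.filter fun x => g x = v).card : ℤ) := by
    rw [← Finset.sum_fiberwise_of_maps_to (s := univ) (t := univ.image g) (g := g)
      (fun x _ => mem_image_of_mem g (mem_univ x))]
    apply Finset.sum_congr rfl
    intro v _
    rw [Finset.sum_congr rfl (fun x hx => (mem_filter.1 hx).2), sum_const, nsmul_eq_mul, mul_comm]
  have h2 : ∑ x ∈ univ.filter (fun x => σ x = x), g x =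
      ∑ v ∈ univ.image g, v * ((univ.filter fun x => σ x = x ∧ g x = v).card : ℤ) := by
    rw [← Finset.sum_fiberwise_of_maps_to (s := univ.filter (fun x => σ x = x))
      (t := univ.image g) (g := g) (fun x _ => mem_image_of_mem g (mem_univ x))]
    apply Finset.sum_congr rfl
    intro v _
    rw [Finset.sum_congr rfl (fun x hx => (mem_filter.1 hx).2), sum_const, nsmul_eq_mul, mul_comm,
      Finset.filter_filter]
  rw [h1, h2, ← Finset.sum_sub_distrib]
  apply Finset.dvd_sum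
  intro v _
  rw [← mul_sub]
  exact (fix_card p k σ hσ g hg v).mul_left v

/-- the `p`-torsion of `ZMod (p^(j+1))` -/
def iot (p j : ℕ) : ZMod p →+ ZMod (p ^ (j + 1)) :=
  ZMod.lift p ⟨zmultiplesHom _ ((p : ZMod (p ^ (j + 1))) ^ j), by
    simp only [zmultiplesHom_apply, natCast_zsmul, nsmul_eq_mul]
    rw [← pow_succ']
    exact_mod_cast ZMod.natCast_self (p ^ (j + 1))⟩

theorem iot_nat (p j : ℕ) (N : ℕ) : iot p j (N : ZMod p) = (p : ZMod (p ^ (j + 1))) ^ j * N := by
  unfold iot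
  have := ZMod.lift_coe p (A := ZMod (p ^ (j + 1)))
    ⟨zmultiplesHom _ ((p : ZMod (p ^ (j + 1))) ^ j), by
      simp only [zmultiplesHom_apply, natCast_zsmul, nsmul_eq_mul]
      rw [← pow_succ']
      exact_mod_cast ZMod.natCast_self (p ^ (j + 1))⟩ (N : ℤ)
  rw [Int.cast_natCast] at this
  rw [this]
  simp [mul_comm]

variable {p j : ℕ} [Fact p.Prime]

theorem iot_val (a : ZMod p) : iot p j a = (p : ZMod (p ^ (j + 1))) ^ j * (a.val : ℕ) := by
  rw [← iot_nat, ZMod.natCast_zmod_val]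

theorem iot_mul (c a : ZMod p) : iot p j (c * a) = (c.val : ZMod (p ^ (j + 1))) * iot p j a := by
  have : c * a = c.val • a := by
    rw [nsmul_eq_mul, ZMod.natCast_zmod_val]
  rw [this, map_nsmul, nsmul_eq_mul]

theorem iot_inj : Function.Injective (iot p j) := by
  rw [injective_iff_map_eq_zero]
  intro a ha
  have hp : p.Prime := Fact.out
  rw [iot_val, ← Nat.cast_pow, ← Nat.cast_mul, ZMod.natCast_eq_zero_iff, pow_succ] at ha
  have h1 : p ∣ a.val := Nat.dvd_of_mul_dvd_mul_left (pow_pos hp.pos j) ha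
  rw [← ZMod.natCast_zmod_val a]
  exact (ZMod.natCast_eq_zero_iff _ _).2 h1

theorem iot_range (x : ZMod (p ^ (j + 1))) (hx : (p : ZMod (p ^ (j + 1))) * x = 0) :
    ∃ a, iot p j a = x := by
  have hp : p.Prime := Fact.out
  have hne : NeZero (p ^ (j + 1)) := ⟨pow_ne_zero _ hp.ne_zero⟩
  rw [← ZMod.natCast_zmod_val x, ← Nat.cast_mul, ZMod.natCast_eq_zero_iff] at hx
  have hx' : p * p ^ j ∣ p * x.val := by
    have e : p * p ^ j = p ^ (j + 1) := (pow_succ' p j).symm
    rw [e]; exact hx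
  obtain ⟨c, hc⟩ := Nat.dvd_of_mul_dvd_mul_left hp.pos hx' 
  refine ⟨(c : ZMod p), ?_⟩
  rw [iot_nat, ← Nat.cast_pow, ← Nat.cast_mul, ← hc, ZMod.natCast_zmod_val]

theorem p_iot (a : ZMod p) : (p : ZMod (p ^ (j + 1))) * iot p j a = 0 := by
  rw [← nsmul_eq_mul, ← map_nsmul, nsmul_eq_mul, ZMod.natCast_self, zero_mul, map_zero]

/-- multiplication by `1+p` -/
theorem unit_one_add : IsUnit ((1 : ZMod (p ^ (j + 1))) + p) := by
  have hp : p.Prime := Fact.out
  have h1 : Nat.Coprime (1 + p) (p ^ (j + 1)) := by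
    apply Nat.Coprime.pow_right
    simp
  have := (ZMod.isUnit_iff_coprime (1 + p) (p ^ (j + 1))).2 h1
  exact_mod_cast this

omit [Fact p.Prime] in
theorem one_add_pow : ((1 : ZMod (p ^ (j + 1))) + p) ^ (p ^ (j + 1)) = 1 := by
  have h := dvd_sub_pow_of_dvd_sub (R := ℤ) (p := p) (a := 1 + p) (b := 1)
    (by simp) (j + 1)
  rw [one_pow] at h
  have h2 : ((p : ℤ) ^ (j + 1)) ∣ (1 + p) ^ p ^ (j + 1) - 1 := (pow_dvd_pow _ (by omega)).trans h
  have h3 : (((1 + p : ℤ) ^ p ^ (j + 1) - 1 : ℤ) : ZMod (p ^ (j + 1))) = 0 := by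
    rw [ZMod.intCast_zmod_eq_zero_iff_dvd]
    exact_mod_cast h2
  push_cast at h3
  linear_combination h3

/-- the sum over the torsion -/
theorem tors_sum (f : ZMod (p ^ (j + 1)) → ZMod (p ^ (j + 1)) → ℤ)
    (hf : ∀ u, IsUnit u → ∀ a b, f (u * a) (u * b) = f a b) :
    (haveI : NeZero (p ^ (j + 1)) := ⟨pow_ne_zero _ (Fact.out : p.Prime).ne_zero⟩
    (p : ℤ) ∣ ∑ a, ∑ b, f a b - ∑ a, ∑ b, f (iot p j a) (iot p j b)) := by
  have hp : p.Prime := Fact.out
  haveI hne : NeZero (p ^ (j + 1)) := ⟨pow_ne_zero _ hp.ne_zero⟩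
  show (p : ℤ) ∣ ∑ a, ∑ b, f a b - ∑ a, ∑ b, f (iot p j a) (iot p j b)
  classical
  obtain ⟨u, hu⟩ := unit_one_add (p := p) (j := j)
  set σ : Equiv.Perm (ZMod (p ^ (j + 1)) × ZMod (p ^ (j + 1))) :=
    (Units.mulLeft u).prodCongr (Units.mulLeft u) with hσ
  have hσ1 : ∀ x, σ x = ((1 + p) * x.1, (1 + p) * x.2) := by
    intro x
    rw [← hu]
    rfl
  have hσN : ∀ (N : ℕ) x, (σ ^ N) x = ((1 + p) ^ N * x.1, (1 + p) ^ N * x.2) := by
    intro N
    induction N with
    | zero => intro x; simp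
    | succ N ih =>
      intro x
      rw [pow_succ σ N, Equiv.Perm.mul_apply, ih, hσ1]
      ext
      · simp only; ring
      · simp only; ring
  have h1 := fix_sum p (j + 1) σ (fun x => by rw [hσN, one_add_pow]; simp)
    (fun x => f x.1 x.2) (fun x => by rw [hσ1]; exact hf _ unit_one_add _ _)
  have h2 : ∑ x ∈ univ.filter (fun x => σ x = x), f x.1 x.2 =
      ∑ a, ∑ b, f (iot p j a) (iot p j b) := by
    rw [← Fintype.sum_prod_type' (fun a b => f (iot p j a) (iot p j b))]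
    symm
    refine Finset.sum_bij (fun x _ => (iot p j x.1, iot p j x.2)) ?_ ?_ ?_ ?_
    · intro x _
      rw [mem_filter, hσ1]
      refine ⟨mem_univ _, ?_⟩
      simp only [add_mul, one_mul, p_iot, add_zero]
    · intro x _ y _ h
      have h3 := Prod.ext_iff.1 h
      exact Prod.ext (iot_inj h3.1) (iot_inj h3.2)
    · intro x hx
      rw [mem_filter, hσ1] at hx
      have h3 := Prod.ext_iff.1 hx.2
      simp only at h3
      obtain ⟨a, ha⟩ := iot_range x.1 (by linear_combination h3.1)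
      obtain ⟨b, hb⟩ := iot_range x.2 (by linear_combination h3.2)
      exact ⟨(a, b), mem_univ _, Prod.ext ha hb⟩
    · intro x _; rfl
  rw [h2, Fintype.sum_prod_type] at h1
  exact h1

theorem val_unit (c : ZMod p) (hc : c ≠ 0) : IsUnit (c.val : ZMod (p ^ (j + 1))) := by
  have hp : p.Prime := Fact.out
  rw [ZMod.isUnit_iff_coprime]
  apply Nat.Coprime.pow_right
  rw [Nat.coprime_comm, hp.coprime_iff_not_dvd]
  intro h
  apply hc
  rw [← ZMod.natCast_zmod_val c]
  exact (ZMod.natCast_eq_zero_iff _ _).2 h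

/-- the torsion congruence -/
theorem tors_line (f : ZMod (p ^ (j + 1)) → ZMod (p ^ (j + 1)) → ℤ)
    (hf : ∀ u, IsUnit u → ∀ a b, f (u * a) (u * b) = f a b)
    (hT : haveI : NeZero (p ^ (j + 1)) := ⟨pow_ne_zero _ (Fact.out : p.Prime).ne_zero⟩
      (p : ℤ) ∣ ∑ a, ∑ b, f a b) :
    (p : ℤ) ∣ f 0 0 - ∑ l, f (iot p j (rep l).1) (iot p j (rep l).2) := by
  have hp : p.Prime := Fact.out
  haveI hne : NeZero (p ^ (j + 1)) := ⟨pow_ne_zero _ hp.ne_zero⟩
  have h1 := tors_sum f hf
  have h2 := R848.SICP.sum_plane (fun a b : ZMod p => f (iot p j a) (iot p j b))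
    (fun k hk a b => by
      rw [iot_mul, iot_mul, hf _ (val_unit k hk)])
  simp only [map_zero] at h2
  have h3 : (p : ℤ) ∣ ∑ a, ∑ b, f (iot p j a) (iot p j b) :=
    (Int.dvd_iff_dvd_of_dvd_sub h1).1 hT
  rw [h2] at h3
  have e : f 0 0 - ∑ l, f (iot p j (rep l).1) (iot p j (rep l).2) =
      (f 0 0 + (p - 1) * ∑ l, cc (fun a b : ZMod p => f (iot p j a) (iot p j b)) l) -
        p * ∑ l, cc (fun a b : ZMod p => f (iot p j a) (iot p j b)) l := by
    unfold cc
    ring
  rw [e]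
  exact Int.dvd_sub h3 (Dvd.intro _ rfl)

end Pool.Agent.helper391_IR
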