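import Mathlib
import Pool.Agent.helper391_IR.Tors

set_option autoImplicit false

/-! The congruence at a prime, and the impossibility of two primes of different type. -/

namespace Pool.Agent.helper391_IR

open Finset
open scoped BigOperators
open R848.SICP (rep cc rep_ne crt_char crt_sum crt_unit unit_inv)

theorem lemP_aux {p j D : ℕ} [Fact p.Prime] [NeZero (p ^ (j + 1) * D)]
    (hco : (p ^ (j + 1)).Coprime D) (χ : AddChar (ZMod (p ^ (j + 1) * D)) ℂ) (hχ : χ.IsPrimitive)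
    (ε : ℤ) (hε : ε = 1 ∨ ε = -1)
    (G : ZMod (p ^ (j + 1) * D) → ZMod (p ^ (j + 1) * D) → ℤ)
    (hdual : ∀ x y, ∑ c, ∑ b, χ (b * x - c * y) * (G c b : ℂ) =
      ((ε * (p ^ (j + 1) * D : ℕ) : ℤ) : ℂ) * G x y)
    (x y : ZMod (p ^ (j + 1) * D)) (N : ℕ) (hN : Nat.Coprime N p)
    (hx : (N : ZMod (p ^ (j + 1) * D)) * x = 0) (hy : (N : ZMod (p ^ (j + 1) * D)) * y = 0) :
    (p : ℤ) ∣ G x y - ∑ l : Option (ZMod p),
      G (((p ^ j * D : ℕ) : ZMod (p ^ (j + 1) * D)) * (((rep l).1.val : ℕ) : ZMod _) + x)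
        (((p ^ j * D : ℕ) : ZMod (p ^ (j + 1) * D)) * (((rep l).2.val : ℕ) : ZMod _) + y) := by
  classical
  have hp : p.Prime := Fact.out
  have hne : p ^ (j + 1) * D ≠ 0 := NeZero.ne _
  have hP0 : p ^ (j + 1) ≠ 0 := fun h => hne (by rw [h, zero_mul])
  have hD0 : D ≠ 0 := fun h => hne (by rw [h, mul_zero])
  have : NeZero (p ^ (j + 1)) := ⟨hP0⟩
  have : NeZero D := ⟨hD0⟩
  have hK : (ε * (p ^ (j + 1) * D : ℕ) : ℤ) ≠ 0 := by
    apply mul_ne_zero
    · rcases hε with h | h <;> rw [h] <;> norm_num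
    · exact_mod_cast hne
  have huinv := unit_inv χ hχ G _ hK hdual
  obtain ⟨χ1, χ2, hp1, hp2, h3⟩ := crt_char hco χ hχ
  set E := ZMod.chineseRemainder hco with hE
  have hfst : ∀ z : ZMod (p ^ (j + 1) * D), (N : ZMod (p ^ (j + 1) * D)) * z = 0 →
      z = E.symm (0, (E z).2) := by
    intro z hz
    have h1 := congrArg E hz
    rw [map_mul, map_natCast, map_zero] at h1
    have h2 := congrArg Prod.fst h1
    simp only [Prod.fst_mul, Prod.fst_natCast, Prod.fst_zero] at h2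
    have hu : IsUnit (N : ZMod (p ^ (j + 1))) :=
      (ZMod.isUnit_iff_coprime _ _).2 (Nat.Coprime.pow_right _ hN)
    rw [hu.mul_right_eq_zero] at h2
    rw [← h2]
    exact (E.symm_apply_apply z).symm
  set s := (E x).2 with hs
  set r := (E y).2 with hr
  have hxs := hfst x hx
  have hyr := hfst y hy
  rw [← hs] at hxs
  rw [← hr] at hyr
  set F : ZMod (p ^ (j + 1)) → ZMod D → ZMod (p ^ (j + 1)) → ZMod D → ℤ :=
    fun a s b r => G (E.symm (a, s)) (E.symm (b, r)) with hF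
  set T : ZMod D → ZMod D → ℤ := fun s r => ∑ a, ∑ b, F a s b r with hT
  have hdual' : ∀ x2 y2, ∑ s, ∑ r, χ2 (r * x2 - s * y2) * (T s r : ℂ) =
        ((ε * (p ^ (j + 1) * D : ℕ) : ℤ) : ℂ) * F 0 x2 0 y2 := by
    intro x2 y2
    have h4 := hdual (E.symm (0, x2)) (E.symm (0, y2))
    rw [crt_sum hco χ χ1 χ2 h3 (fun c b => (G c b : ℂ)) 0 0 x2 y2] at h4
    have h5 : ((ε * (p ^ (j + 1) * D : ℕ) : ℤ) : ℂ) * F 0 x2 0 y2 =
      ((ε * (p ^ (j + 1) * D : ℕ) : ℤ) : ℂ) * G (E.symm (0, x2)) (E.symm (0, y2)) := rfl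
    rw [h5, ← h4]
    apply Finset.sum_congr rfl; intro s _
    apply Finset.sum_congr rfl; intro r _
    simp only [hT]
    push_cast
    rw [Finset.mul_sum]
    apply Finset.sum_congr rfl; intro a _
    rw [Finset.mul_sum]
    apply Finset.sum_congr rfl; intro b _
    rw [mul_zero, mul_zero, sub_zero, AddChar.map_zero_eq_one, one_mul]
  -- the sum over a coset is divisible by `p`
  have hPC : ((p ^ (j + 1) : ℕ) : ℂ) ≠ 0 := by exact_mod_cast hP0
  have hDC : (D : ℂ) ≠ 0 := by exact_mod_cast hD0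
  have hε2 : ε * ε = 1 := by rcases hε with h | h <;> rw [h] <;> norm_num
  have hTs : (p : ℤ) ∣ T s r := by
    have h4 := R848.SIC.fourier_inv χ2 hp2 (fun s r => (T s r : ℂ)) s r
    rw [ZMod.card] at h4
    set α : ℂ := ∑ x2, ∑ y2, χ2 (-(r * x2 - s * y2)) * (F 0 x2 0 y2 : ℂ) with hα
    have hαint : IsIntegral ℤ α := IsIntegral.sum _ (fun x2 _ => IsIntegral.sum _ (fun y2 _ =>
      (R848.SIC.char_integral χ2 _).mul
        (isIntegral_algebraMap (R := ℤ) (A := ℂ) (x := F 0 x2 0 y2))))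
    have h5 : ∑ x2, ∑ y2, χ2 (-(r * x2 - s * y2)) *
        (∑ u1, ∑ u2, χ2 (u2 * x2 - u1 * y2) * (T u1 u2 : ℂ)) =
        ((ε * (p ^ (j + 1) * D : ℕ) : ℤ) : ℂ) * α := by
      rw [hα, Finset.mul_sum]
      apply Finset.sum_congr rfl; intro x2 _
      rw [Finset.mul_sum]
      apply Finset.sum_congr rfl; intro y2 _
      rw [hdual']
      ring
    rw [h5] at h4
    have h6 : ((ε * (p ^ (j + 1) : ℕ) : ℤ) : ℂ) * α = ((D * T s r : ℤ) : ℂ) := by
      apply mul_left_cancel₀ hDC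
      push_cast at h4 ⊢
      linear_combination h4
    obtain ⟨w, hw⟩ := R848.SIC.int_of_integral α hαint
      (((ε * (D * T s r) : ℤ) : ℚ) / (p ^ (j + 1) : ℕ)) (by
      have hεC : (ε : ℂ) * ε = 1 := by exact_mod_cast hε2
      push_cast
      push_cast at hPC h6
      rw [eq_div_iff hPC]
      linear_combination (ε : ℂ) * h6 - α * (p : ℂ) ^ (j + 1) * hεC)
    rw [hw] at h6
    have h7 : ε * (p ^ (j + 1) : ℕ) * w = D * T s r := by exact_mod_cast h6
    have h8 : (p : ℤ) ∣ D * T s r := by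
      rw [← h7]
      push_cast
      rw [pow_succ]
      exact ⟨ε * p ^ j * w, by ring⟩
    have h9 : IsCoprime (p : ℤ) (D : ℤ) := by
      apply Nat.isCoprime_iff_coprime.2
      exact Nat.Coprime.coprime_dvd_left (dvd_pow_self p (Nat.succ_ne_zero j)) hco
    exact h9.dvd_of_dvd_mul_left h8
  -- torsion
  have hfu : ∀ u, IsUnit u → ∀ a b, F (u * a) s (u * b) r = F a s b r := by
    intro u hu a b
    have h4 := huinv _ (crt_unit hco hu isUnit_one) (E.symm (a, s)) (E.symm (b, r))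
    rw [← hE, ← map_mul, ← map_mul, Prod.mk_mul_mk, Prod.mk_mul_mk, one_mul, one_mul] at h4
    exact h4
  have h10 := tors_line (fun a b => F a s b r) hfu hTs
  have h11 : F 0 s 0 r = G x y := by
    simp only [hF]
    rw [← hxs, ← hyr]
  have hDu : IsUnit (D : ZMod (p ^ (j + 1))) :=
    (ZMod.isUnit_iff_coprime _ _).2 hco.symm
  have h12 : ∀ (a : ZMod p) (t : ZMod D), E.symm ((D : ZMod (p ^ (j + 1))) * iot p j a, t) =
      ((p ^ j * D : ℕ) : ZMod (p ^ (j + 1) * D)) * ((a.val : ℕ) : ZMod _) + E.symm (0, t) := by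
    intro a t
    apply E.injective
    rw [E.apply_symm_apply, map_add, map_mul, map_natCast, map_natCast, E.apply_symm_apply,
      iot_val]
    ext
    · simp only [Prod.fst_add, Prod.fst_mul, Prod.fst_natCast]
      push_cast; ring
    · simp only [Prod.snd_add, Prod.snd_mul, Prod.snd_natCast]
      push_cast
      rw [ZMod.natCast_self]
      ring
  rw [h11] at h10
  have h13 : ∀ l, F (iot p j (rep l).1) s (iot p j (rep l).2) r =
      G (((p ^ j * D : ℕ) : ZMod (p ^ (j + 1) * D)) * (((rep l).1.val : ℕ) : ZMod _) + x)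
        (((p ^ j * D : ℕ) : ZMod (p ^ (j + 1) * D)) * (((rep l).2.val : ℕ) : ZMod _) + y) := by
    intro l
    rw [← hfu _ hDu]
    simp only [hF]
    rw [h12, h12, ← hxs, ← hyr]
  rw [Finset.sum_congr rfl (fun l _ => h13 l)] at h10
  exact h10

/-- the multiples of `m/p` -/
def tau (m : ℕ) {p : ℕ} (a : ZMod p) : ZMod m := ((m / p : ℕ) : ZMod m) * ((a.val : ℕ) : ZMod m)

theorem tau_zero {m p : ℕ} [NeZero m] (hp : p.Prime) (hpm : p ∣ m) (a : ZMod p) (N : ℕ)
    (hN : Nat.Coprime N p) (h : (N : ZMod m) * tau m a = 0) : a = 0 := by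
  have : NeZero p := ⟨hp.ne_zero⟩
  unfold tau at h
  rw [← Nat.cast_mul, ← Nat.cast_mul, ZMod.natCast_eq_zero_iff] at h
  obtain ⟨W, hW⟩ := hpm
  have hW0 : 0 < W := by
    rcases Nat.eq_zero_or_pos W with h' | h'
    · exact absurd (by rw [hW, h', mul_zero]) (NeZero.ne m)
    · exact h'
  have h1 : m / p = W := by rw [hW, Nat.mul_div_cancel_left _ hp.pos]
  rw [h1] at h
  have h2 : W * p ∣ W * (N * a.val) := by
    have e : W * p = m := by rw [hW, mul_comm]
    rw [e]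
    have e2 : W * (N * a.val) = N * (W * a.val) := by ring
    rw [e2]; exact h
  have h3 : p ∣ N * a.val := Nat.dvd_of_mul_dvd_mul_left hW0 h2
  have h4 : p ∣ a.val := (hN.symm).dvd_of_dvd_mul_left h3
  rw [← ZMod.natCast_zmod_val a]
  exact (ZMod.natCast_eq_zero_iff _ _).2 h4

theorem tau_tors {m p : ℕ} (hpm : p ∣ m) (a : ZMod p) : (p : ZMod m) * tau m a = 0 := by
  unfold tau
  rw [← mul_assoc, ← Nat.cast_mul, Nat.mul_div_cancel' hpm, ZMod.natCast_self, zero_mul]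

theorem lemP {m : ℕ} [NeZero m] (χ : AddChar (ZMod m) ℂ) (hχ : χ.IsPrimitive)
    (ε : ℤ) (hε : ε = 1 ∨ ε = -1) (G : ZMod m → ZMod m → ℤ)
    (hdual : ∀ x y, ∑ c, ∑ b, χ (b * x - c * y) * (G c b : ℂ) =
      ((ε * (m : ℕ) : ℤ) : ℂ) * G x y)
    (p : ℕ) [Fact p.Prime] (hpm : p ∣ m)
    (x y : ZMod m) (N : ℕ) (hN : Nat.Coprime N p)
    (hx : (N : ZMod m) * x = 0) (hy : (N : ZMod m) * y = 0) :
    (p : ℤ) ∣ G x y - ∑ l : Option (ZMod p),
      G (tau m (rep l).1 + x) (tau m (rep l).2 + y) := by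
  have hp : p.Prime := Fact.out
  obtain ⟨k, D, hD, hm⟩ := Nat.exists_eq_pow_mul_and_not_dvd (NeZero.ne m) p hp.ne_one
  have hk : k ≠ 0 := by
    rintro rfl
    rw [pow_zero, one_mul] at hm
    exact hD (hm ▸ hpm)
  obtain ⟨j, rfl⟩ := Nat.exists_eq_succ_of_ne_zero hk
  subst hm
  have hco : (p ^ (j + 1)).Coprime D := by
    apply Nat.Coprime.pow_left
    exact (hp.coprime_iff_not_dvd).2 hD
  have h := lemP_aux (j := j) hco χ hχ ε hε G hdual x y N hN hx hy
  have e : p ^ (j + 1) * D / p = p ^ j * D := by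
    rw [pow_succ, mul_comm (p ^ j) p, mul_assoc, Nat.mul_div_cancel_left _ hp.pos]
  unfold tau
  have e' : p ^ j.succ * D / p = p ^ j * D := e
  rw [e']
  exact h

theorem rep_tau {m p : ℕ} [NeZero m] [Fact p.Prime] (hpm : p ∣ m) (l : Option (ZMod p))
    (N : ℕ) (hN : Nat.Coprime N p) (h1 : (N : ZMod m) * tau m (rep l).1 = 0)
    (h2 : (N : ZMod m) * tau m (rep l).2 = 0) : False := by
  have hp : p.Prime := Fact.out
  exact rep_ne l (Prod.ext (tau_zero hp hpm _ N hN h1) (tau_zero hp hpm _ N hN h2))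

/-- two primes of different type: first case -/
theorem two_primes {m : ℕ} [NeZero m] (χ : AddChar (ZMod m) ℂ) (hχ : χ.IsPrimitive)
    (ε : ℤ) (hε : ε = 1 ∨ ε = -1) (G : ZMod m → ZMod m → ℤ)
    (h1 : ∀ c b, ¬ (c = 0 ∧ b = 0) → G c b = 1 ∨ G c b = -1) (n : ℤ)
    (h2 : G 0 0 = n)
    (hdual : ∀ x y, ∑ c, ∑ b, χ (b * x - c * y) * (G c b : ℂ) =
      ((ε * (m : ℕ) : ℤ) : ℂ) * G x y)
    (p q : ℕ) (hp : p.Prime) (hq : q.Prime) (hpm : p ∣ m) (hqm : q ∣ m) (hp3 : 3 ≤ p)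
    (hpq : p + 2 ≤ q) (hn1 : (p : ℤ) ∣ n - 1) (hn2 : (q : ℤ) ∣ n + 1) : False := by
  have : Fact p.Prime := ⟨hp⟩
  have : Fact q.Prime := ⟨hq⟩
  have hqodd : Odd q := hq.odd_of_ne_two (by omega)
  have hqp : Nat.Coprime q p := (Nat.coprime_primes hq hp).2 (by omega)
  have hpq' : Nat.Coprime p q := hqp.symm
  refine table p q hp3 hpq hqodd (L := Option (ZMod p)) (L' := Option (ZMod q))
    (by rw [Fintype.card_option, ZMod.card]) (by rw [Fintype.card_option, ZMod.card])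
    (fun l => G (tau m (rep l).1) (tau m (rep l).2)) ?_
    (fun l' => G (tau m (rep l').1) (tau m (rep l').2)) ?_
    (fun l l' => G (tau m (rep l).1 + tau m (rep l').1) (tau m (rep l).2 + tau m (rep l').2)) ?_
    n hn1 hn2 ?_ ?_ ?_ ?_
  · intro l
    apply h1
    rintro ⟨h3, h4⟩
    exact rep_tau hpm l 1 (Nat.coprime_one_left _) (by rw [h3, mul_zero]) (by rw [h4, mul_zero])
  · intro l
    apply h1
    rintro ⟨h3, h4⟩
    exact rep_tau hqm l 1 (Nat.coprime_one_left _) (by rw [h3, mul_zero]) (by rw [h4, mul_zero])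
  · intro l l'
    apply h1
    rintro ⟨h3, h4⟩
    have h5 := congrArg (fun z => (q : ZMod m) * z) h3
    have h6 := congrArg (fun z => (q : ZMod m) * z) h4
    simp only [mul_add, mul_zero] at h5 h6
    rw [tau_tors hqm, add_zero] at h5 h6
    exact rep_tau hpm l q hqp h5 h6
  · have := lemP χ hχ ε hε G hdual p hpm 0 0 1 (Nat.coprime_one_left _) (by simp) (by simp)
    simp only [add_zero, h2] at this
    exact this
  · have := lemP χ hχ ε hε G hdual q hqm 0 0 1 (Nat.coprime_one_left _) (by simp) (by simp)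
    simp only [add_zero, h2] at this
    exact this
  · intro l'
    exact lemP χ hχ ε hε G hdual p hpm (tau m (rep l').1) (tau m (rep l').2) q hqp
      (tau_tors hqm _) (tau_tors hqm _)
  · intro l
    have := lemP χ hχ ε hε G hdual q hqm (tau m (rep l).1) (tau m (rep l).2) p hpq'
      (tau_tors hpm _) (tau_tors hpm _)
    simp only [add_comm (tau m (rep l).1), add_comm (tau m (rep l).2)]
    exact this

/-- two primes of different type -/
theorem two_primes' {m : ℕ} [NeZero m] (hodd : Odd m) (χ : AddChar (ZMod m) ℂ)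
    (hχ : χ.IsPrimitive)
    (ε : ℤ) (hε : ε = 1 ∨ ε = -1) (G : ZMod m → ZMod m → ℤ)
    (h1 : ∀ c b, ¬ (c = 0 ∧ b = 0) → G c b = 1 ∨ G c b = -1) (n : ℤ)
    (h2 : G 0 0 = n)
    (hdual : ∀ x y, ∑ c, ∑ b, χ (b * x - c * y) * (G c b : ℂ) =
      ((ε * (m : ℕ) : ℤ) : ℂ) * G x y)
    (p q : ℕ) (hp : p.Prime) (hq : q.Prime) (hpm : p ∣ m) (hqm : q ∣ m)
    (hn1 : (p : ℤ) ∣ n - 1) (hn2 : (q : ℤ) ∣ n + 1) : False := by
  have odd_of : ∀ p : ℕ, p.Prime → p ∣ m → 3 ≤ p ∧ Odd p := by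
    intro p hp hpm
    have h2 := hp.two_le
    have hpo := hodd.of_dvd_nat hpm
    obtain ⟨i, hi⟩ := hpo
    exact ⟨by omega, ⟨i, hi⟩⟩
  obtain ⟨hp3, ip, hip⟩ := odd_of p hp hpm
  obtain ⟨hq3, iq, hiq⟩ := odd_of q hq hqm
  rcases lt_trichotomy p q with hlt | heq | hgt
  · exact two_primes χ hχ ε hε G h1 n h2 hdual p q hp hq hpm hqm hp3 (by omega) hn1 hn2
  · subst heq
    have h3 : (p : ℤ) ∣ 2 := by
      have := Int.dvd_sub hn2 hn1
      have e : n + 1 - (n - 1) = 2 := by ring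
      rwa [e] at this
    have h4 := Int.le_of_dvd (by norm_num) h3
    have : (3 : ℤ) ≤ p := by exact_mod_cast hp3
    linarith
  · refine two_primes χ hχ ε hε (fun c b => - G c b) ?_ (-n) (by simp only [h2]) ?_ q p hq hp
      hqm hpm hq3 (by omega) ?_ ?_
    · intro c b hcb
      rcases h1 c b hcb with h | h
      · right; simp only [h]
      · left; simp only [h, neg_neg]
    · intro x y
      have h3 := hdual x y
      push_cast
      push_cast at h3
      simp only [mul_neg, Finset.sum_neg_distrib]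
      rw [h3]
    · have := (Int.dvd_neg).2 hn2
      have e : -(n + 1) = -n - 1 := by ring
      rwa [e] at this
    · have := (Int.dvd_neg).2 hn1
      have e : -(n - 1) = -n + 1 := by ring
      rwa [e] at this

end Pool.Agent.helper391_IR
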