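import Mathlib
import Pool.Agent.helper391_IR.Lem

set_option autoImplicit false

/-! Self-dual functions on `(ZMod m)^2`, `m` odd. -/

namespace Pool.Agent.helper391_IR

open Finset
open scoped BigOperators

theorem n_le {m : ℕ} [NeZero m] (hm1 : m ≠ 1) (χ : AddChar (ZMod m) ℂ) (n : ℕ)
    (ε : ℤ) (hε : ε = 1 ∨ ε = -1) (G : ZMod m → ZMod m → ℤ)
    (h1 : ∀ c b, ¬ (c = 0 ∧ b = 0) → G c b = 1 ∨ G c b = -1)
    (h2 : G 0 0 = n)
    (hdual : ∀ x y, ∑ c, ∑ b, χ (b * x - c * y) * (G c b : ℂ) =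
      ((ε * (m : ℕ) : ℤ) : ℂ) * G x y) : n ≤ m + 1 := by
  classical
  have hm0 : 0 < m := Nat.pos_of_ne_zero (NeZero.ne m)
  have hm2 : 2 ≤ m := by omega
  have hsum : ∑ p : ZMod m × ZMod m, G p.1 p.2 = ε * m * n := by
    have h4 := hdual 0 0
    simp only [mul_zero, sub_zero, AddChar.map_zero_eq_one, one_mul] at h4
    rw [h2] at h4
    rw [Fintype.sum_prod_type]
    have h5 : ((∑ c, ∑ b, G c b : ℤ) : ℂ) = ((ε * m * n : ℤ) : ℂ) := by
      push_cast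
      push_cast at h4
      exact h4
    exact_mod_cast h5
  have hcard : ∑ _p : ZMod m × ZMod m, (1 : ℤ) = m ^ 2 := by
    rw [sum_const, card_univ, Fintype.card_prod, ZMod.card]
    simp [pow_two]
  have hGle : ∀ p : ZMod m × ZMod m, 0 ≤ (1 + if p = (0, 0) then ((n : ℤ) - 1) else 0) -
      G p.1 p.2 := by
    intro p
    by_cases hp : p = (0, 0)
    · rw [if_pos hp, hp]
      simp only
      rw [h2]; linarith
    · rw [if_neg hp]
      rcases h1 p.1 p.2 (fun h => hp (Prod.ext h.1 h.2)) with h | h <;> rw [h] <;> norm_num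
  have hGge : ∀ p : ZMod m × ZMod m, 0 ≤ (1 + if p = (0, 0) then (-(n : ℤ) - 1) else 0) +
      G p.1 p.2 := by
    intro p
    by_cases hp : p = (0, 0)
    · rw [if_pos hp, hp]
      simp only
      rw [h2]; linarith
    · rw [if_neg hp]
      rcases h1 p.1 p.2 (fun h => hp (Prod.ext h.1 h.2)) with h | h <;> rw [h] <;> norm_num
  have hmz : (2 : ℤ) ≤ m := by exact_mod_cast hm2
  have hA := Finset.sum_nonneg (fun p (_ : p ∈ (univ : Finset (ZMod m × ZMod m))) => hGle p)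
  rw [Finset.sum_sub_distrib, Finset.sum_add_distrib, hcard, hsum, Finset.sum_ite_eq'] at hA
  simp only [mem_univ, if_true] at hA
  have hB := Finset.sum_nonneg (fun p (_ : p ∈ (univ : Finset (ZMod m × ZMod m))) => hGge p)
  rw [Finset.sum_add_distrib, Finset.sum_add_distrib, hcard, hsum, Finset.sum_ite_eq'] at hB
  simp only [mem_univ, if_true] at hB
  by_contra hcon
  push Not at hcon
  have hn : (m : ℤ) + 2 ≤ n := by exact_mod_cast hcon
  rcases hε with h | h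
  · rw [h] at hA
    nlinarith
  · rw [h] at hB
    nlinarith

theorem aligned' {m : ℕ} [NeZero m] (hm1 : m ≠ 1) (hodd : Odd m)
    (χ : AddChar (ZMod m) ℂ) (hχ : χ.IsPrimitive)
    (n : ℕ) (hn2 : 2 ≤ n) (hn : (m : ℤ) ∣ (n : ℤ) ^ 2 - 1)
    (ε : ℤ) (hε : ε = 1 ∨ ε = -1)
    (G : ZMod m → ZMod m → ℤ)
    (h1 : ∀ c b, ¬ (c = 0 ∧ b = 0) → G c b = 1 ∨ G c b = -1)
    (h2 : G 0 0 = n)
    (hdual : ∀ x y, ∑ c, ∑ b, χ (b * x - c * y) * (G c b : ℂ) =
      ((ε * (m : ℕ) : ℤ) : ℂ) * G x y) : n = m + 1 ∨ n + 1 = m := by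
  have hle := n_le hm1 χ n ε hε G h1 h2 hdual
  have hm0 : 0 < m := Nat.pos_of_ne_zero (NeZero.ne m)
  have hm3 : 3 ≤ m := by
    obtain ⟨i, hi⟩ := hodd
    omega
  obtain ⟨n', rfl⟩ : ∃ n', n = n' + 1 := ⟨n - 1, by omega⟩
  have hdv : m ∣ n' * (n' + 2) := by
    have h3 : (m : ℤ) ∣ ((n' * (n' + 2) : ℕ) : ℤ) := by
      have e : ((n' * (n' + 2) : ℕ) : ℤ) = ((n' + 1 : ℕ) : ℤ) ^ 2 - 1 := by push_cast; ring
      rw [e]; exact hn
    exact_mod_cast h3
  by_cases hA : Nat.Coprime m (n' + 2)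
  · left
    have h3 : m ∣ n' := hA.dvd_of_dvd_mul_right hdv
    have := Nat.le_of_dvd (by omega) h3
    omega
  by_cases hB : Nat.Coprime m n'
  · right
    have h3 : m ∣ n' + 2 := hB.dvd_of_dvd_mul_left hdv
    obtain ⟨c, hc⟩ := h3
    have hc2 : c < 2 := by
      by_contra hcon
      push Not at hcon
      have : m * 2 ≤ m * c := Nat.mul_le_mul_left m hcon
      omega
    have : c = 0 ∨ c = 1 := by omega
    rcases this with rfl | rfl
    · omega
    · omega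
  exfalso
  obtain ⟨q, hq, hqm, hqn⟩ := Nat.Prime.not_coprime_iff_dvd.1 hA
  obtain ⟨p, hp, hpm, hpn⟩ := Nat.Prime.not_coprime_iff_dvd.1 hB
  refine two_primes' hodd χ hχ ε hε G h1 ((n' + 1 : ℕ) : ℤ) h2 hdual p q hp hq hpm hqm ?_ ?_
  · obtain ⟨c, hc⟩ := hpn
    exact ⟨c, by rw [hc]; push_cast; ring⟩
  · obtain ⟨c, hc⟩ := hqn
    have : ((n' + 2 : ℕ) : ℤ) = q * c := by exact_mod_cast hc
    exact ⟨c, by rw [← this]; push_cast; ring⟩

end Pool.Agent.helper391_IR
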