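import Mathlib
import Pool.Agent.helper391_IR.AlignedP

set_option autoImplicit false

/-! Self-dual sign functions on `(ZMod m)^2` with `n = m + 1` or `n = m - 1`: the sign patterns. -/

namespace Pool.Agent.helper391_IR

open Finset
open scoped BigOperators

section basic

variable {m : ℕ} [NeZero m] (χ : AddChar (ZMod m) ℂ)

theorem total {n : ℕ} {ε : ℤ} {G : ZMod m → ZMod m → ℤ}
    (h2 : G 0 0 = n)
    (hdual : ∀ x y, ∑ c, ∑ b, χ (b * x - c * y) * (G c b : ℂ) =
      ((ε * (m : ℕ) : ℤ) : ℂ) * G x y) :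
    ∑ p : ZMod m × ZMod m, G p.1 p.2 = ε * m * n := by
  have h4 := hdual 0 0
  simp only [mul_zero, sub_zero, AddChar.map_zero_eq_one, one_mul] at h4
  rw [h2] at h4
  rw [Fintype.sum_prod_type]
  have h5 : ((∑ c, ∑ b, G c b : ℤ) : ℂ) = ((ε * m * n : ℤ) : ℂ) := by
    push_cast
    push_cast at h4
    exact h4
  exact_mod_cast h5

theorem card_sum : ∑ _p : ZMod m × ZMod m, (1 : ℤ) = m ^ 2 := by
  rw [sum_const, card_univ, Fintype.card_prod, ZMod.card]
  simp [pow_two]

/-- the case `n = m + 1` -/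
theorem pattern_plus {n : ℕ} (hn : n = m + 1) {ε : ℤ} (hε : ε = 1 ∨ ε = -1)
    {G : ZMod m → ZMod m → ℤ}
    (h1 : ∀ c b, ¬ (c = 0 ∧ b = 0) → G c b = 1 ∨ G c b = -1)
    (h2 : G 0 0 = n)
    (hdual : ∀ x y, ∑ c, ∑ b, χ (b * x - c * y) * (G c b : ℂ) =
      ((ε * (m : ℕ) : ℤ) : ℂ) * G x y) :
    ε = 1 ∧ ∀ c b, ¬ (c = 0 ∧ b = 0) → G c b = 1 := by
  classical
  have hm0 : 0 < m := Nat.pos_of_ne_zero (NeZero.ne m)
  have hsum := total χ h2 hdual
  have hcard := card_sum (m := m)
  have hnz : (n : ℤ) = m + 1 := by exact_mod_cast hn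
  have hmz : (0 : ℤ) < m := by exact_mod_cast hm0
  have hGle : ∀ p : ZMod m × ZMod m, 0 ≤ (1 + if p = (0, 0) then ((n : ℤ) - 1) else 0) -
      G p.1 p.2 := by
    intro p
    by_cases hp : p = (0, 0)
    · rw [if_pos hp, hp]
      simp only
      rw [h2]; linarith
    · rw [if_neg hp]
      rcases h1 p.1 p.2 (fun h => hp (Prod.ext h.1 h.2)) with h | h <;> rw [h] <;> norm_num
  have hGge : ∀ p : ZMod m × ZMod m, 0 ≤ (1 + if p = (0, 0) then (-(n : ℤ) - 1) else 0) +
      G p.1 p.2 := by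
    intro p
    by_cases hp : p = (0, 0)
    · rw [if_pos hp, hp]
      simp only
      rw [h2]; linarith
    · rw [if_neg hp]
      rcases h1 p.1 p.2 (fun h => hp (Prod.ext h.1 h.2)) with h | h <;> rw [h] <;> norm_num
  have hε1 : ε = 1 := by
    rcases hε with h | h
    · exact h
    · exfalso
      have h4 := Finset.sum_nonneg (fun p (_ : p ∈ (univ : Finset (ZMod m × ZMod m))) => hGge p)
      rw [Finset.sum_add_distrib, Finset.sum_add_distrib, hcard, hsum, Finset.sum_ite_eq', h] at h4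
      simp only [mem_univ, if_true] at h4
      rw [hnz] at h4
      nlinarith
  refine ⟨hε1, ?_⟩
  have hzero : ∑ p : ZMod m × ZMod m, ((1 + if p = (0, 0) then ((n : ℤ) - 1) else 0) -
      G p.1 p.2) = 0 := by
    rw [Finset.sum_sub_distrib, Finset.sum_add_distrib, hcard, hsum, Finset.sum_ite_eq', hε1]
    simp only [mem_univ, if_true]
    rw [hnz]; ring
  intro c b hcb
  have h4 := (Finset.sum_eq_zero_iff_of_nonneg (fun p _ => hGle p)).1 hzero (c, b) (mem_univ _)
  rw [if_neg (by
    intro h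
    exact hcb ⟨congrArg Prod.fst h, congrArg Prod.snd h⟩)] at h4
  simp only at h4
  linarith

/-- the case `n = m - 1`, `ε = -1` -/
theorem pattern_minus {n : ℕ} (hn : n + 1 = m) {G : ZMod m → ZMod m → ℤ}
    (h1 : ∀ c b, ¬ (c = 0 ∧ b = 0) → G c b = 1 ∨ G c b = -1)
    (h2 : G 0 0 = n)
    (hdual : ∀ x y, ∑ c, ∑ b, χ (b * x - c * y) * (G c b : ℂ) =
      (((-1) * (m : ℕ) : ℤ) : ℂ) * G x y) :
    ∀ c b, ¬ (c = 0 ∧ b = 0) → G c b = -1 := by
  classical
  have hsum := total χ h2 hdual
  have hcard := card_sum (m := m)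
  have hnz : (m : ℤ) = n + 1 := by exact_mod_cast hn.symm
  have hGge : ∀ p : ZMod m × ZMod m, 0 ≤ (1 + if p = (0, 0) then (-(n : ℤ) - 1) else 0) +
      G p.1 p.2 := by
    intro p
    by_cases hp : p = (0, 0)
    · rw [if_pos hp, hp]
      simp only
      rw [h2]; linarith
    · rw [if_neg hp]
      rcases h1 p.1 p.2 (fun h => hp (Prod.ext h.1 h.2)) with h | h <;> rw [h] <;> norm_num
  have hzero : ∑ p : ZMod m × ZMod m, ((1 + if p = (0, 0) then (-(n : ℤ) - 1) else 0) +
      G p.1 p.2) = 0 := by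
    rw [Finset.sum_add_distrib, Finset.sum_add_distrib, hcard, hsum, Finset.sum_ite_eq']
    simp only [mem_univ, if_true]
    rw [hnz]; ring
  intro c b hcb
  have h4 := (Finset.sum_eq_zero_iff_of_nonneg (fun p _ => hGge p)).1 hzero (c, b) (mem_univ _)
  rw [if_neg (by
    intro h
    exact hcb ⟨congrArg Prod.fst h, congrArg Prod.snd h⟩)] at h4
  simp only at h4
  linarith

theorem char_sum (hχ : χ.IsPrimitive) (x y : ZMod m) :
    ∑ p : ZMod m × ZMod m, χ (p.2 * x - p.1 * y) = if (x, y) = (0, 0) then (m : ℂ) ^ 2 else 0 := by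
  have h1 : ∑ p : ZMod m × ZMod m, χ (p.2 * x - p.1 * y) =
      (∑ c, χ (c * (-y))) * (∑ b, χ (b * x)) := by
    rw [Finset.sum_mul_sum, Fintype.sum_prod_type]
    apply Finset.sum_congr rfl; intro c _
    apply Finset.sum_congr rfl; intro b _
    rw [← AddChar.map_add_eq_mul]
    congr 1
    ring
  have e1 := AddChar.sum_mulShift x hχ
  have e2 := AddChar.sum_mulShift (-y) hχ
  rw [ZMod.card] at e1 e2
  rw [h1, e1, e2]
  by_cases hx : x = 0
  · by_cases hy : y = 0
    · subst hx; subst hy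
      simp [pow_two]
    · rw [if_neg (by rwa [neg_eq_zero]), if_neg (fun h => hy (congrArg Prod.snd h))]
      simp
  · rw [if_neg hx, if_neg (fun h => hx (congrArg Prod.fst h))]
    simp

theorem eq_one_of_re {z : ℂ} (hz : ‖z‖ = 1) (hre : z.re = 1) : z = 1 := by
  have h1 : z.re ^ 2 + z.im ^ 2 = 1 := by
    have h2 : Complex.normSq z = ‖z‖ ^ 2 := Complex.normSq_eq_norm_sq z
    rw [hz, Complex.normSq_apply] at h2
    nlinarith
  have h3 : z.im = 0 := by
    rw [hre] at h1
    have : z.im ^ 2 = 0 := by linarith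
    exact pow_eq_zero_iff (two_ne_zero) |>.1 this
  exact Complex.ext (by rw [hre]; simp) (by rw [h3]; simp)

theorem char_eq_one (hχ : χ.IsPrimitive) {z : ZMod m} (hz : χ z = 1) : z = 0 := by
  have h1 := R848.SICP.prim_one χ hχ
  have h2 := R848.SICP.char_pow χ z 1
  rw [one_mul, Nat.cast_one, one_mul, hz] at h2
  have h3 := (h1.pow_eq_one_iff_dvd _).1 h2
  rw [← ZMod.natCast_zmod_val z]
  exact (ZMod.natCast_eq_zero_iff _ _).2 h3

/-- the case `n = m - 1`, `ε = 1`: a self-dual subgroup -/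
theorem pattern_lagrange (hχ : χ.IsPrimitive) {n : ℕ} (hn : n + 1 = m)
    {G : ZMod m → ZMod m → ℤ}
    (h1 : ∀ c b, ¬ (c = 0 ∧ b = 0) → G c b = 1 ∨ G c b = -1)
    (h2 : G 0 0 = n)
    (hdual : ∀ x y, ∑ c, ∑ b, χ (b * x - c * y) * (G c b : ℂ) =
      ((1 * (m : ℕ) : ℤ) : ℂ) * G x y) :
    ∃ L : AddSubgroup (ZMod m × ZMod m), Nat.card L = m ∧
      (∀ v ∈ L, ∀ w ∈ L, v.1 * w.2 = v.2 * w.1) ∧
      (∀ c b, ¬ (c = 0 ∧ b = 0) → (c, b) ∈ L → G c b = -1) ∧
      (∀ c b, ¬ (c = 0 ∧ b = 0) → (c, b) ∉ L → G c b = 1) := by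
  classical
  have hsum := total χ h2 hdual
  have hcard := card_sum (m := m)
  have hnz : (m : ℤ) = n + 1 := by exact_mod_cast hn.symm
  have hmC : (m : ℂ) ≠ 0 := by exact_mod_cast NeZero.ne m
  set S : Finset (ZMod m × ZMod m) := univ.filter fun p => p = (0, 0) ∨ G p.1 p.2 = -1 with hS
  have hG : ∀ p : ZMod m × ZMod m, G p.1 p.2 = 1 + (if p = (0, 0) then (m : ℤ) else 0) -
      2 * (if p ∈ S then 1 else 0) := by
    intro p
    by_cases hp : p = (0, 0)
    · have : p ∈ S := mem_filter.2 ⟨mem_univ _, Or.inl hp⟩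
      rw [if_pos hp, if_pos this, hp]
      simp only
      rw [h2, hnz]; ring
    · rw [if_neg hp]
      rcases h1 p.1 p.2 (fun h => hp (Prod.ext h.1 h.2)) with h | h
      · have : p ∉ S := by
          rw [hS, mem_filter]
          rintro ⟨-, h' | h'⟩
          · exact hp h'
          · rw [h] at h'; norm_num at h'
        rw [h, if_neg this]; norm_num
      · have : p ∈ S := mem_filter.2 ⟨mem_univ _, Or.inr h⟩
        rw [h, if_pos this]; norm_num
  have hScard : (S.card : ℤ) = m := by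
    have h3 : ∑ p : ZMod m × ZMod m, G p.1 p.2 = m ^ 2 + m - 2 * S.card := by
      rw [Finset.sum_congr rfl (fun p _ => hG p), Finset.sum_sub_distrib, Finset.sum_add_distrib,
        hcard, Finset.sum_ite_eq', ← Finset.mul_sum, Finset.sum_ite_mem, Finset.sum_const]
      simp
    rw [hsum] at h3
    have : (n : ℤ) = m - 1 := by linarith
    rw [this] at h3
    linarith
  have hSdual : ∀ x y, ∑ p ∈ S, χ (p.2 * x - p.1 * y) = if (x, y) ∈ S then (m : ℂ) else 0 := by
    intro x y
    have h3 := hdual x y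
    rw [← Fintype.sum_prod_type' (fun c b => χ (b * x - c * y) * (G c b : ℂ))] at h3
    have h4 : ∀ p : ZMod m × ZMod m, χ (p.2 * x - p.1 * y) * (G p.1 p.2 : ℂ) =
        χ (p.2 * x - p.1 * y) + (if p = (0, 0) then χ (p.2 * x - p.1 * y) * (m : ℂ) else 0) -
          2 * (if p ∈ S then χ (p.2 * x - p.1 * y) else 0) := by
      intro p
      rw [hG p]
      by_cases hp : p = (0, 0) <;> by_cases hp' : p ∈ S
      · rw [if_pos hp, if_pos hp', if_pos hp, if_pos hp']; push_cast; ring
      · rw [if_pos hp, if_neg hp', if_pos hp, if_neg hp']; push_cast; ring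
      · rw [if_neg hp, if_pos hp', if_neg hp, if_pos hp']; push_cast; ring
      · rw [if_neg hp, if_neg hp', if_neg hp, if_neg hp']; push_cast; ring
    rw [Finset.sum_congr rfl (fun p _ => h4 p), Finset.sum_sub_distrib, Finset.sum_add_distrib,
      char_sum χ hχ, Finset.sum_ite_eq', ← Finset.mul_sum, Finset.sum_ite_mem,
      Finset.univ_inter] at h3
    have h5 := hG (x, y)
    simp only at h5
    rw [h5] at h3
    simp only [mem_univ, if_true, zero_mul, sub_zero, AddChar.map_zero_eq_one, one_mul] at h3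
    by_cases hxy : (x, y) = (0, 0) <;> by_cases hxS : (x, y) ∈ S
    · rw [if_pos hxy, if_pos hxy, if_pos hxS] at h3
      rw [if_pos hxS]
      push_cast at h3
      linear_combination -(1 / 2) * h3
    · rw [if_pos hxy, if_pos hxy, if_neg hxS] at h3
      rw [if_neg hxS]
      push_cast at h3
      linear_combination -(1 / 2) * h3
    · rw [if_neg hxy, if_neg hxy, if_pos hxS] at h3
      rw [if_pos hxS]
      push_cast at h3
      linear_combination -(1 / 2) * h3
    · rw [if_neg hxy, if_neg hxy, if_neg hxS] at h3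
      rw [if_neg hxS]
      push_cast at h3
      linear_combination -(1 / 2) * h3
  -- isotropy
  have hone : ∀ v ∈ S, ∀ w ∈ S, w.2 * v.1 - w.1 * v.2 = 0 := by
    intro v hv w hw
    apply char_eq_one χ hχ
    have h3 := hSdual v.1 v.2
    rw [if_pos (by exact hv)] at h3
    have hnorm : ∀ z, ‖χ z‖ = 1 := fun z => AddChar.norm_apply χ z
    have h4 : ∑ p ∈ S, (1 - (χ (p.2 * v.1 - p.1 * v.2)).re) = 0 := by
      rw [Finset.sum_sub_distrib, ← Complex.re_sum, h3, Finset.sum_const]
      have : (S.card : ℝ) = m := by exact_mod_cast hScard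
      simp [this]
    have h5 := (Finset.sum_eq_zero_iff_of_nonneg (fun p _ => by
      have h6 := Complex.re_le_norm (χ (p.2 * v.1 - p.1 * v.2))
      rw [hnorm] at h6
      linarith)).1 h4 w hw
    exact eq_one_of_re (hnorm _) (by linarith)
  have hmem : ∀ x y : ZMod m, (∀ p ∈ S, p.2 * x - p.1 * y = 0) → (x, y) ∈ S := by
    intro x y h
    by_contra hcon
    have h3 := hSdual x y
    rw [if_neg hcon, Finset.sum_congr rfl (fun p hp => by
      rw [h p hp, AddChar.map_zero_eq_one]), Finset.sum_const, nsmul_eq_mul, mul_one] at h3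
    have h4 : (S.card : ℂ) = m := by exact_mod_cast hScard
    rw [h4] at h3
    exact hmC h3
  have h0 : ((0 : ZMod m), (0 : ZMod m)) ∈ S := mem_filter.2 ⟨mem_univ _, Or.inl rfl⟩
  refine ⟨{ carrier := {p | p ∈ S}
            add_mem' := ?_
            zero_mem' := h0
            neg_mem' := ?_ }, ?_, ?_, ?_, ?_⟩
  · intro v w hv hw
    apply hmem (v + w).1 (v + w).2
    intro p hp
    have h3 := hone v hv p hp
    have h4 := hone w hw p hp
    rw [Prod.fst_add, Prod.snd_add]
    linear_combination h3 + h4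
  · intro v hv
    apply hmem (-v).1 (-v).2
    intro p hp
    have h3 := hone v hv p hp
    rw [Prod.fst_neg, Prod.snd_neg]
    linear_combination -h3
  · have h3 : Nat.card S = S.card := by
      rw [Nat.card_eq_fintype_card, Fintype.card_coe]
    have h4 : S.card = m := by exact_mod_cast hScard
    exact h3.trans h4
  · intro v hv w hw
    have h3 := hone v hv w hw
    linear_combination h3
  · intro c b hcb hL
    have h3 : (c, b) ∈ S := hL
    rw [hS, mem_filter] at h3
    rcases h3.2 with h | h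
    · exact absurd ⟨congrArg Prod.fst h, congrArg Prod.snd h⟩ hcb
    · exact h
  · intro c b hcb hL
    rcases h1 c b hcb with h | h
    · exact h
    · exact absurd (show (c, b) ∈ S from mem_filter.2 ⟨mem_univ _, Or.inr h⟩) hL

end basic

end Pool.Agent.helper391_IR
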