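import Mathlib
import Pool.Agent.R503.SIC.Cliff
import Pool.Agent.R848.SICP.Final
import Pool.Agent.helper391_IR.Patterns

set_option autoImplicit false

/-! Symmetries of order two of Weyl-Heisenberg SIC fiducials in odd dimension: the self-dual
function of the overlaps inverted by the symmetry. -/

namespace Pool.Agent.helper391_IR

open Finset
open scoped BigOperators ComplexConjugate
open Pool.Agent.R503.SIC (e ov Fid Sym Dm Nrm)
open R848.SICP

theorem main_core {m D n : ℕ} [NeZero (m * D)] (hodd : Odd (m * D))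
    (hco : m.Coprime D) {φ : ZMod (m * D) → ℂ} (hφ : Fid φ)
    (k : ZMod (m * D)) (hk : ZMod.chineseRemainder hco k = (-1, 1)) (l : ℂ)
    (hl : ∀ j, φ (k * j) = l * φ j) (hl1 : l = 1 ∨ l = -1) (hn : n ^ 2 = m * D + 1) :
    haveI : NeZero m := ⟨fun h => NeZero.ne (m * D) (by rw [h, zero_mul])⟩
    ∃ (χ1 : AddChar (ZMod m) ℂ) (ε : ℤ) (G : ZMod m → ZMod m → ℤ), χ1.IsPrimitive ∧
      (ε = 1 ∨ ε = -1) ∧ (ε : ℂ) = l ∧ (∀ c b, ¬ (c = 0 ∧ b = 0) → G c b = 1 ∨ G c b = -1) ∧
      G 0 0 = n ∧ (∀ x y, ∑ c, ∑ b, χ1 (b * x - c * y) * (G c b : ℂ) =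
        ((ε * (m : ℕ) : ℤ) : ℂ) * G x y) ∧
      ∀ c b : ZMod m, ov φ (2 * (ZMod.chineseRemainder hco).symm (c, 0))
        ((ZMod.chineseRemainder hco).symm (b, 0)) =
        e (-((ZMod.chineseRemainder hco).symm (b, 0) * (ZMod.chineseRemainder hco).symm (c, 0))) *
          (G c b / n) := by
  classical
  have hne : m * D ≠ 0 := NeZero.ne _
  have : NeZero m := ⟨fun h => hne (by rw [h, zero_mul])⟩
  have : NeZero D := ⟨fun h => hne (by rw [h, mul_zero])⟩
  have hm0 : 0 < m := Nat.pos_of_ne_zero (NeZero.ne m)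
  have hmdpos : 0 < m * D := Nat.pos_of_ne_zero hne
  have hn2 : 2 ≤ n := by
    have : 1 < n ^ 2 := by omega
    by_contra h
    have : n ≤ 1 := by omega
    have : n ^ 2 ≤ 1 ^ 2 := Nat.pow_le_pow_left this 2
    omega
  have hnC : (n : ℂ) ≠ 0 := by
    have : n ≠ 0 := by omega
    exact_mod_cast this
  set E := ZMod.chineseRemainder hco with hE
  obtain ⟨χ1, χ2, hp1, hp2, h3⟩ := crt_char hco (ZMod.stdAddChar (N := m * D))
    (ZMod.isPrimitive_stdAddChar _)
  have hχ1 : ∀ z : ZMod m, ZMod.stdAddChar (E.symm (z, 0)) = χ1 z := by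
    intro z
    rw [h3, AddChar.map_zero_eq_one, mul_one]
  -- the slices
  set f : ZMod D → ZMod m → ℂ := fun s j => φ (E.symm (j, s)) with hf
  have hfl : ∀ s j, f s (-j) = l * f s j := by
    intro s j
    simp only [hf]
    rw [← hl]
    congr 1
    apply E.injective
    rw [map_mul, E.apply_symm_apply, E.apply_symm_apply, hk, Prod.mk_mul_mk]
    simp
  have hcl : conj l = l := by rcases hl1 with h | h <;> rw [h] <;> simp
  have hll : conj l * l = 1 := by rw [hcl]; rcases hl1 with h | h <;> rw [h] <;> norm_num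
  set ρ : ZMod m → ZMod m → ℂ := fun c b => ∑ s, r1 χ1 (f s) c b with hρ
  have hρreal : ∀ c b, conj (ρ c b) = ρ c b := by
    intro c b
    simp only [hρ]
    rw [map_sum]
    apply Finset.sum_congr rfl
    intro s _
    exact r1_real χ1 (f s) l (hfl s) hll c b
  have hρdual : ∀ x y, ∑ c, ∑ b, χ1 (b * x - c * y) * ρ c b = m * l * ρ x y := by
    intro x y
    have e1 : ∀ c b, χ1 (b * x - c * y) * ρ c b = ∑ s, χ1 (b * x - c * y) * r1 χ1 (f s) c b := by
      intro c b
      simp only [hρ]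
      rw [Finset.mul_sum]
    simp_rw [e1]
    have e2 : ∑ c, ∑ b, ∑ s, χ1 (b * x - c * y) * r1 χ1 (f s) c b =
        ∑ s, ∑ c, ∑ b, χ1 (b * x - c * y) * r1 χ1 (f s) c b := by
      rw [Finset.sum_comm' (s := univ) (t := fun _ => univ) (t' := univ) (s' := fun _ => univ)
        (by simp)]
      calc ∑ b, ∑ c, ∑ s, χ1 (b * x - c * y) * r1 χ1 (f s) c b
          = ∑ b, ∑ s, ∑ c, χ1 (b * x - c * y) * r1 χ1 (f s) c b :=
            Finset.sum_congr rfl (fun _ _ => Finset.sum_comm)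
        _ = ∑ s, ∑ b, ∑ c, χ1 (b * x - c * y) * r1 χ1 (f s) c b := Finset.sum_comm
        _ = ∑ s, ∑ c, ∑ b, χ1 (b * x - c * y) * r1 χ1 (f s) c b :=
            Finset.sum_congr rfl (fun _ _ => Finset.sum_comm)
    rw [e2, Finset.sum_congr rfl (fun s _ => r1_dual χ1 hp1 (f s) l (hfl s) x y),
      ← Finset.mul_sum, hcl]
  -- relation to overlaps
  have hρov : ∀ c b : ZMod m, ov φ (2 * E.symm (c, 0)) (E.symm (b, 0)) =
      e (-(E.symm (b, 0) * E.symm (c, 0))) * ρ c b := by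
    intro c b
    have e1 : ρ c b = ∑ j, e (E.symm (b, 0) * j) *
        (conj (φ (j + E.symm (c, 0))) * φ (j - E.symm (c, 0))) := by
      rw [R848.SIC.sum_crt E.toEquiv (fun j => e (E.symm (b, 0) * j) *
        (conj (φ (j + E.symm (c, 0))) * φ (j - E.symm (c, 0)))), Finset.sum_comm]
      simp only [hρ]
      apply Finset.sum_congr rfl
      intro s _
      rw [r1]
      apply Finset.sum_congr rfl
      intro j _
      have e2 : E.toEquiv.symm (j, s) = E.symm (j, s) := rfl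
      rw [e2]
      have e3 : E.symm (b, 0) * E.symm (j, s) = E.symm (b * j, 0) := by
        rw [← map_mul, Prod.mk_mul_mk, zero_mul]
      have e4 : E.symm (j, s) + E.symm (c, 0) = E.symm (j + c, s) := by
        rw [← map_add, Prod.mk_add_mk, add_zero]
      have e5 : E.symm (j, s) - E.symm (c, 0) = E.symm (j - c, s) := by
        rw [← map_sub, Prod.mk_sub_mk, sub_zero]
      rw [e3, e4, e5]
      simp only [e, hf]
      rw [hχ1]
    rw [e1, Finset.mul_sum]
    unfold ov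
    rw [← Equiv.sum_comp (Equiv.subRight (E.symm (c, 0)))
      (fun j => conj (φ (j + 2 * E.symm (c, 0))) * (e (E.symm (b, 0) * j) * φ j))]
    apply Finset.sum_congr rfl
    intro j _
    simp only [Equiv.subRight_apply]
    have e6 : j - E.symm (c, 0) + 2 * E.symm (c, 0) = j + E.symm (c, 0) := by ring
    rw [e6]
    have e7 : e (E.symm (b, 0) * (j - E.symm (c, 0))) =
        e (-(E.symm (b, 0) * E.symm (c, 0))) * e (E.symm (b, 0) * j) := by
      rw [← Pool.Agent.R503.SIC.e_add]; congr 1; ring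
    rw [e7]; ring
  have hρ0 : ρ 0 0 = 1 := by
    have h4 := hρov 0 0
    have h5 : E.symm ((0 : ZMod m), (0 : ZMod D)) = 0 := map_zero _
    rw [h5, mul_zero, mul_zero, neg_zero, Pool.Agent.R503.SIC.e_zero, one_mul,
      Pool.Agent.R503.SIC.ov_zero hφ.1] at h4
    exact h4.symm
  have hρ1 : ∀ c b, ¬ (c = 0 ∧ b = 0) → ((n : ℂ) * ρ c b) = 1 ∨ ((n : ℂ) * ρ c b) = -1 := by
    intro c b hcb
    have h4 : ‖ρ c b‖ ^ 2 = 1 / ((m * D : ℕ) + 1 : ℝ) := by
      have h5 := hφ.2 (2 * E.symm (c, 0)) (E.symm (b, 0)) (by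
        intro h
        have h6 := congrArg Prod.fst h
        have h7 := congrArg Prod.snd h
        simp only at h6 h7
        apply hcb
        have h20 : IsUnit (2 : ZMod (m * D)) := by
          have : Nat.Coprime 2 (m * D) := (Nat.coprime_two_left).2 hodd
          exact_mod_cast (ZMod.isUnit_iff_coprime 2 (m * D)).2 this
        rw [h20.mul_right_eq_zero, map_eq_zero_iff E.symm E.symm.injective] at h6
        rw [map_eq_zero_iff E.symm E.symm.injective] at h7
        exact ⟨(Prod.ext_iff.1 h6).1, (Prod.ext_iff.1 h7).1⟩)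
      rw [hρov, norm_mul, Pool.Agent.R503.SIC.norm_e, one_mul] at h5
      exact h5
    have h5 : ρ c b * ρ c b = ((1 / ((m * D : ℕ) + 1 : ℝ) : ℝ) : ℂ) := by
      rw [← h4]
      nth_rw 1 [← hρreal c b]
      exact Pool.Agent.R503.SIC.conj_mul_self' _
    have h6 : ((n : ℂ) * ρ c b) ^ 2 = 1 := by
      have h7 : ((n : ℂ)) ^ 2 = ((m * D : ℕ) : ℂ) + 1 := by exact_mod_cast hn
      rw [mul_pow, pow_two (ρ c b), h5, h7]
      push_cast
      rw [mul_one_div, div_self]
      rw [← Nat.cast_mul, ← h7]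
      exact pow_ne_zero 2 hnC
    exact translate.sq_eq_one_iff_of_side h6
  -- the integer function
  have hG : ∀ c b, ∃ g : ℤ, (¬ (c = 0 ∧ b = 0) → g = 1 ∨ g = -1) ∧ (c = 0 ∧ b = 0 → g = n) ∧
      (g : ℂ) = n * ρ c b := by
    intro c b
    by_cases hcb : c = 0 ∧ b = 0
    · refine ⟨n, fun h => absurd hcb h, fun _ => rfl, ?_⟩
      rw [hcb.1, hcb.2, hρ0, mul_one]
      push_cast; rfl
    · rcases hρ1 c b hcb with h | h
      · exact ⟨1, fun _ => Or.inl rfl, fun h' => absurd h' hcb, by rw [h]; simp⟩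
      · exact ⟨-1, fun _ => Or.inr rfl, fun h' => absurd h' hcb, by rw [h]; simp⟩
  choose G hG1 hG2 hG3 using hG
  obtain ⟨ε, hε, hεl⟩ : ∃ ε : ℤ, (ε = 1 ∨ ε = -1) ∧ (ε : ℂ) = l := by
    rcases hl1 with h | h
    · exact ⟨1, Or.inl rfl, by rw [h]; simp⟩
    · exact ⟨-1, Or.inr rfl, by rw [h]; simp⟩
  have hGdual : ∀ x y, ∑ c, ∑ b, χ1 (b * x - c * y) * (G c b : ℂ) =
      ((ε * (m : ℕ) : ℤ) : ℂ) * G x y := by
    intro x y
    rw [hG3 x y]
    have h4 := hρdual x y
    have e1 : ∑ c, ∑ b, χ1 (b * x - c * y) * (G c b : ℂ) =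
        n * ∑ c, ∑ b, χ1 (b * x - c * y) * ρ c b := by
      rw [Finset.mul_sum]
      apply Finset.sum_congr rfl; intro c _
      rw [Finset.mul_sum]
      apply Finset.sum_congr rfl; intro b _
      rw [hG3]; ring
    rw [e1, h4, ← hεl]
    push_cast
    ring
  refine ⟨χ1, ε, G, hp1, hε, hεl, hG1, hG2 0 0 ⟨rfl, rfl⟩, hGdual, ?_⟩
  intro c b
  rw [hρov]
  congr 1
  rw [eq_div_iff hnC, mul_comm, hG3]

end Pool.Agent.helper391_IR
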