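import Mathlib
import Pool.Agent.R503.SIC.Cliff
import Pool.Agent.R848.SICP.Final
import Pool.Agent.helper391_IR.Core

set_option autoImplicit false

/-! Symmetries of order two of Weyl-Heisenberg SIC fiducials in odd dimension. -/

namespace Pool.Agent.helper391_IR

open Finset
open scoped BigOperators ComplexConjugate
open Pool.Agent.R503.SIC (e ov Fid Sym Dm Nrm)
open R848.SICP (translate split mult mult_eq)

theorem tri {m D n : ℕ} [NeZero (m * D)] (hodd : Odd (m * D)) (hm1 : m ≠ 1)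
    (hco : m.Coprime D) {φ : ZMod (m * D) → ℂ} (hφ : Fid φ)
    (k : ZMod (m * D)) (hk : ZMod.chineseRemainder hco k = (-1, 1)) (l : ℂ)
    (hl : ∀ j, φ (k * j) = l * φ j) (hl1 : l = 1 ∨ l = -1) (hn : n ^ 2 = m * D + 1) :
    (n = m + 1 ∧ l = 1 ∧ ∀ c b : ZMod m, ¬ (c = 0 ∧ b = 0) →
      ov φ (2 * (ZMod.chineseRemainder hco).symm (c, 0)) ((ZMod.chineseRemainder hco).symm (b, 0)) =
        e (-((ZMod.chineseRemainder hco).symm (b, 0) * (ZMod.chineseRemainder hco).symm (c, 0))) *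
          (1 / n)) ∨
    (n + 1 = m ∧ l = -1 ∧ ∀ c b : ZMod m, ¬ (c = 0 ∧ b = 0) →
      ov φ (2 * (ZMod.chineseRemainder hco).symm (c, 0)) ((ZMod.chineseRemainder hco).symm (b, 0)) =
        e (-((ZMod.chineseRemainder hco).symm (b, 0) * (ZMod.chineseRemainder hco).symm (c, 0))) *
          (-1 / n)) ∨
    (n + 1 = m ∧ l = 1 ∧ ∃ L : AddSubgroup (ZMod m × ZMod m), Nat.card L = m ∧
      (∀ v ∈ L, ∀ w ∈ L, v.1 * w.2 = v.2 * w.1) ∧
      ∀ c b : ZMod m, ¬ (c = 0 ∧ b = 0) →
      ((c, b) ∈ L → ov φ (2 * (ZMod.chineseRemainder hco).symm (c, 0))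
          ((ZMod.chineseRemainder hco).symm (b, 0)) =
        e (-((ZMod.chineseRemainder hco).symm (b, 0) * (ZMod.chineseRemainder hco).symm (c, 0))) *
          (-1 / n)) ∧
      ((c, b) ∉ L → ov φ (2 * (ZMod.chineseRemainder hco).symm (c, 0))
          ((ZMod.chineseRemainder hco).symm (b, 0)) =
        e (-((ZMod.chineseRemainder hco).symm (b, 0) * (ZMod.chineseRemainder hco).symm (c, 0))) *
          (1 / n))) := by
  have hne : m * D ≠ 0 := NeZero.ne _
  have : NeZero m := ⟨fun h => hne (by rw [h, zero_mul])⟩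
  obtain ⟨χ, ε, G, hχ, hε, hεl, h1, h2, hdual, hov⟩ := main_core hodd hco hφ k hk l hl hl1 hn
  have hmdpos : 0 < m * D := Nat.pos_of_ne_zero hne
  have hn2 : 2 ≤ n := by
    have : 1 < n ^ 2 := by omega
    by_contra h
    have : n ≤ 1 := by omega
    have : n ^ 2 ≤ 1 ^ 2 := Nat.pow_le_pow_left this 2
    omega
  rcases aligned' hm1 (Nat.odd_mul.1 hodd).1 χ hχ n hn2 (by
    refine ⟨D, ?_⟩
    have : ((n : ℤ)) ^ 2 = m * D + 1 := by exact_mod_cast hn
    rw [this]; ring) ε hε G h1 h2 hdual with hcase | hcase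
  · left
    obtain ⟨hε1, hall⟩ := pattern_plus χ hcase hε h1 h2 hdual
    refine ⟨hcase, by rw [← hεl, hε1]; simp, ?_⟩
    intro c b hcb
    rw [hov, hall c b hcb]
    simp
  · right
    rcases hε with hε1 | hε1
    · right
      rw [hε1] at hdual
      obtain ⟨L, hL1, hL2, hL3, hL4⟩ := pattern_lagrange χ hχ hcase h1 h2 hdual
      refine ⟨hcase, by rw [← hεl, hε1]; simp, L, hL1, hL2, ?_⟩
      intro c b hcb
      refine ⟨fun h => ?_, fun h => ?_⟩
      · rw [hov, hL3 c b hcb h]; simp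
      · rw [hov, hL4 c b hcb h]; simp
    · left
      rw [hε1] at hdual
      have hall := pattern_minus χ hcase h1 h2 hdual
      refine ⟨hcase, by rw [← hεl, hε1]; simp, ?_⟩
      intro c b hcb
      rw [hov, hall c b hcb]
      simp

section arith

variable {m D n : ℕ} [NeZero (m * D)]

theorem k_neg (hco : m.Coprime D) (k : ZMod (m * D)) (hkE : ZMod.chineseRemainder hco k = (-1, 1))
    (h : n = m + 1) (hn : n ^ 2 = m * D + 1) : k = -n := by
  have hne : m * D ≠ 0 := NeZero.ne _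
  have hm0 : m ≠ 0 := fun h => hne (by rw [h, zero_mul])
  set E := ZMod.chineseRemainder hco with hE
  have hD : D = m + 2 := by
    have h1 : m * D = m * (m + 2) := by
      have : (m + 1) ^ 2 = m * D + 1 := by rw [← h]; exact hn
      nlinarith
    exact Nat.eq_of_mul_eq_mul_left (Nat.pos_of_ne_zero hm0) h1
  apply E.injective
  rw [hkE, map_neg, map_natCast]
  have e1 : ((n : ℕ) : ZMod m) = 1 := by
    rw [h]; push_cast; rw [ZMod.natCast_self, zero_add]
  have e2 : ((n : ℕ) : ZMod D) = -1 := by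
    have : n + 1 = D := by omega
    have h3 : ((n + 1 : ℕ) : ZMod D) = 0 := by rw [this]; exact ZMod.natCast_self D
    push_cast at h3
    linear_combination h3
  have : ((n : ℕ) : ZMod m × ZMod D) = (((n : ℕ) : ZMod m), ((n : ℕ) : ZMod D)) := rfl
  rw [this, e1, e2]
  simp

theorem k_pos (hco : m.Coprime D) (k : ZMod (m * D)) (hkE : ZMod.chineseRemainder hco k = (-1, 1))
    (h : n + 1 = m) (hn : n ^ 2 = m * D + 1) : k = n := by
  have hne : m * D ≠ 0 := NeZero.ne _
  have hm0 : m ≠ 0 := fun h => hne (by rw [h, zero_mul])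
  set E := ZMod.chineseRemainder hco with hE
  have hD : D + 1 = n := by
    have h1 : m * (D + 1) = m * n := by
      have : n ^ 2 = m * D + 1 := hn
      rw [← h] at this ⊢
      nlinarith
    exact Nat.eq_of_mul_eq_mul_left (Nat.pos_of_ne_zero hm0) h1
  apply E.injective
  rw [hkE, map_natCast]
  have e1 : ((n : ℕ) : ZMod m) = -1 := by
    have h3 : ((n + 1 : ℕ) : ZMod m) = 0 := by rw [h]; exact ZMod.natCast_self m
    push_cast at h3
    linear_combination h3
  have e2 : ((n : ℕ) : ZMod D) = 1 := by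
    rw [← hD]; push_cast; rw [ZMod.natCast_self, zero_add]
  have : ((n : ℕ) : ZMod m × ZMod D) = (((n : ℕ) : ZMod m), ((n : ℕ) : ZMod D)) := rfl
  rw [this, e1, e2]

omit [NeZero (m * D)] in
theorem key_coord (hd : Odd (m * D)) (hco : m.Coprime D) (k : ZMod (m * D))
    (hkE : ZMod.chineseRemainder hco k = (-1, 1)) (x : ZMod (m * D)) (hx : k * x = -x) :
    x = (ZMod.chineseRemainder hco).symm ((ZMod.chineseRemainder hco x).1, 0) := by
  set E := ZMod.chineseRemainder hco with hE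
  have hDodd : Odd D := (Nat.odd_mul.1 hd).2
  have h20 : IsUnit (2 : ZMod D) := by
    have : Nat.Coprime 2 D := (Nat.coprime_two_left).2 hDodd
    exact_mod_cast (ZMod.isUnit_iff_coprime 2 D).2 this
  have h1 := congrArg E hx
  rw [map_mul, hkE, map_neg] at h1
  have h2 := congrArg Prod.snd h1
  simp only [Prod.snd_mul, one_mul, Prod.snd_neg] at h2
  have h3 : 2 * (E x).2 = 0 := by linear_combination h2
  rw [h20.mul_right_eq_zero] at h3
  rw [← h3]
  exact (E.symm_apply_apply x).symm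

omit [NeZero (m * D)] in
theorem coord_neg (hco : m.Coprime D) (k : ZMod (m * D))
    (hkE : ZMod.chineseRemainder hco k = (-1, 1)) (a : ZMod m) :
    k * (ZMod.chineseRemainder hco).symm (a, 0) = -(ZMod.chineseRemainder hco).symm (a, 0) := by
  set E := ZMod.chineseRemainder hco with hE
  apply E.injective
  rw [map_mul, hkE, map_neg, E.apply_symm_apply]
  simp

end arith

/-- the overlaps inverted by a centred involutive symmetry -/
theorem shape {d : ℕ} [NeZero d] (hd : Odd d) {ψ : ZMod d → ℂ} (hψ : Fid ψ) {k : ZMod d} {c : ℂ}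
    (hk : k * k = 1) (hs : ∀ j, ψ (k * j) = c * ψ j) (hk1 : k ≠ 1) :
    ∃ n : ℕ, n ^ 2 = d + 1 ∧
      ((k = -n ∧ c = 1 ∧ ∀ x z : ZMod d, k * x = -x → k * z = -z → (x, z) ≠ (0, 0) →
          ov ψ (2 * x) z = e (-(z * x)) * (1 / n)) ∨
        (k = n ∧ c = -1 ∧ ∀ x z : ZMod d, k * x = -x → k * z = -z → (x, z) ≠ (0, 0) →
          ov ψ (2 * x) z = e (-(z * x)) * (-1 / n)) ∨
        (k = n ∧ c = 1 ∧ ∃ L : AddSubgroup (ZMod d × ZMod d), Nat.card L = n + 1 ∧
          (∀ v ∈ L, k * v.1 = -v.1 ∧ k * v.2 = -v.2) ∧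
          (∀ v ∈ L, ∀ w ∈ L, v.1 * w.2 = v.2 * w.1) ∧
          ∀ x z : ZMod d, k * x = -x → k * z = -z → (x, z) ≠ (0, 0) →
            ((x, z) ∈ L → ov ψ (2 * x) z = e (-(z * x)) * (-1 / n)) ∧
            ((x, z) ∉ L → ov ψ (2 * x) z = e (-(z * x)) * (1 / n)))) := by
  classical
  have hsym : Sym ψ k 0 0 c := ⟨hk, fun j => by
    rw [add_zero, hs, zero_mul, Pool.Agent.R503.SIC.e_zero, mul_one]⟩
  obtain ⟨n, hn, -⟩ := Pool.Agent.R503.SIC.dilation hψ hsym hk1
  refine ⟨n, hn, ?_⟩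
  obtain ⟨-, -, hc⟩ := Pool.Agent.R503.SIC.displ hψ hsym
  rw [mul_zero, Pool.Agent.R503.SIC.e_zero, mul_one] at hc
  have hc1 : c = 1 ∨ c = -1 := translate.sq_eq_one_iff_of_side hc
  obtain ⟨m, D, hco, h, hm1, hK⟩ := split hd k hk hk1
  subst h
  have hkE : ZMod.chineseRemainder hco k = (-1, 1) := by
    obtain ⟨h1, h2⟩ := hK k.val (ZMod.natCast_zmod_val k)
    rw [← ZMod.natCast_zmod_val k, map_natCast]
    exact Prod.ext h1 h2
  have hmain := tri hd hm1 hco hψ k hkE c hs hc1 hn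
  have hne : m * D ≠ 0 := NeZero.ne _
  have hm0 : m ≠ 0 := fun h => hne (by rw [h, zero_mul])
  have key := key_coord hd hco k hkE
  have hneg := coord_neg hco k hkE
  have hzero : ∀ x z : ZMod (m * D), k * x = -x → k * z = -z → (x, z) ≠ (0, 0) →
      ¬ ((ZMod.chineseRemainder hco x).1 = 0 ∧ (ZMod.chineseRemainder hco z).1 = 0) := by
    rintro x z hx hz hxz ⟨h2, h3⟩
    apply hxz
    rw [key x hx, key z hz, h2, h3]
    have : (ZMod.chineseRemainder hco).symm ((0 : ZMod m), (0 : ZMod D)) = 0 := map_zero _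
    rw [this]
  rcases hmain with ⟨h, hc', hov⟩ | ⟨h, hc', hov⟩ | ⟨h, hc', L, hL1, hL2, hL3⟩
  · left
    refine ⟨k_neg hco k hkE h hn, hc', ?_⟩
    intro x z hx hz hxz
    have h1 := hov _ _ (hzero x z hx hz hxz)
    rw [← key x hx, ← key z hz] at h1
    exact h1
  · right; left
    refine ⟨k_pos hco k hkE h hn, hc', ?_⟩
    intro x z hx hz hxz
    have h1 := hov _ _ (hzero x z hx hz hxz)
    rw [← key x hx, ← key z hz] at h1
    exact h1
  · right; right
    refine ⟨k_pos hco k hkE h hn, hc', ?_⟩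
    set E := ZMod.chineseRemainder hco with hE
    set ι : ZMod m →+ ZMod (m * D) :=
      (E.symm : ZMod m × ZMod D →+ ZMod (m * D)).comp (AddMonoidHom.inl (ZMod m) (ZMod D)) with hι
    have hι1 : ∀ a, ι a = E.symm (a, 0) := fun a => rfl
    have hιinj : Function.Injective ι := by
      intro a b hab
      rw [hι1, hι1] at hab
      exact (Prod.ext_iff.1 (E.symm.injective hab)).1
    have hιinj2 : Function.Injective (ι.prodMap ι) := by
      intro a b hab
      have h1 := Prod.ext_iff.1 hab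
      exact Prod.ext (hιinj h1.1) (hιinj h1.2)
    have hmem : ∀ x z : ZMod (m * D), k * x = -x → k * z = -z →
        ((x, z) ∈ L.map (ι.prodMap ι) ↔ ((E x).1, (E z).1) ∈ L) := by
      intro x z hx hz
      have e1 : (x, z) = ι.prodMap ι ((E x).1, (E z).1) :=
        Prod.ext (key x hx) (key z hz)
      rw [e1]
      exact AddSubgroup.mem_map_iff_mem hιinj2
    refine ⟨L.map (ι.prodMap ι), ?_, ?_, ?_, ?_⟩
    · rw [AddSubgroup.card_map_of_injective hιinj2, hL1, h]
    · intro v hv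
      obtain ⟨w, -, rfl⟩ := AddSubgroup.mem_map.1 hv
      exact ⟨hneg w.1, hneg w.2⟩
    · intro v hv v' hv'
      obtain ⟨w, hw, rfl⟩ := AddSubgroup.mem_map.1 hv
      obtain ⟨w', hw', rfl⟩ := AddSubgroup.mem_map.1 hv'
      have h1 := hL2 w hw w' hw'
      show E.symm (w.1, 0) * E.symm (w'.2, 0) = E.symm (w.2, 0) * E.symm (w'.1, 0)
      rw [← map_mul, ← map_mul, Prod.mk_mul_mk, Prod.mk_mul_mk, h1]
    · intro x z hx hz hxz
      have h1 := hL3 _ _ (hzero x z hx hz hxz)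
      rw [← key x hx, ← key z hz] at h1
      refine ⟨fun h2 => h1.1 ((hmem x z hx hz).1 h2), fun h2 => h1.2 (fun h3 => h2 ?_)⟩
      exact (hmem x z hx hz).2 h3

theorem dil' {d : ℕ} [NeZero d] (hd : Odd d) {ψ : ZMod d → ℂ} (hψ : Fid ψ) {k a b : ZMod d} {c : ℂ}
    (hs : Sym ψ k a b c) (hk1 : k ≠ 1) : ∃ n : ℕ, n ^ 2 = d + 1 ∧ (k = n ∨ k = -n) := by
  obtain ⟨φ, hφ, l, hl, -⟩ := translate hd hψ hs
  obtain ⟨n, hn, h⟩ := shape hd hφ hs.1 hl hk1
  refine ⟨n, hn, ?_⟩
  rcases h with ⟨h, -⟩ | ⟨h, -⟩ | ⟨h, -⟩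
  · exact Or.inr h
  · exact Or.inl h
  · exact Or.inl h

/-- uniqueness of the involutive symmetry -/
theorem uniq' {d : ℕ} [NeZero d] (hd : Odd d) (hd3 : d ≠ 3)
    {ψ : ZMod d → ℂ} (hψ : Fid ψ) {k a b k' a' b' : ZMod d} {c c' : ℂ}
    (hs : Sym ψ k a b c) (hk1 : k ≠ 1) (hs' : Sym ψ k' a' b' c') (hk1' : k' ≠ 1) :
    k' = k ∧ a' = a ∧ b' = b := by
  have hcomp : Sym ψ (k' * k) (k' * a + a') (b' * k + b) (c' * c * e (b' * a)) := by
    refine ⟨by linear_combination k * k * hs'.1 + hs.1, fun j => ?_⟩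
    have e1 : k' * k * j + (k' * a + a') = k' * (k * j + a) + a' := by ring
    rw [e1, hs'.2 (k * j + a), hs.2 j]
    have e2 : e (b' * (k * j + a)) * e (b * j) = e (b' * a) * e ((b' * k + b) * j) := by
      rw [← Pool.Agent.R503.SIC.e_add, ← Pool.Agent.R503.SIC.e_add]; congr 1; ring
    linear_combination c' * c * ψ j * e2
  obtain ⟨n, hn, hkn⟩ := dil' hd hψ hs hk1
  obtain ⟨n', hn', hkn'⟩ := dil' hd hψ hs' hk1'
  have hnn : n' = n := by
    have : n' ^ 2 = n ^ 2 := by rw [hn, hn']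
    exact Nat.pow_left_injective (by norm_num : 2 ≠ 0) this
  rw [hnn] at hkn'
  have hnd : (n : ZMod d) * n = 1 := by
    have : ((n ^ 2 : ℕ) : ZMod d) = ((d + 1 : ℕ) : ZMod d) := by rw [hn]
    push_cast at this
    rw [ZMod.natCast_self, zero_add] at this
    rw [← pow_two]; exact this
  have hd1 : d ≠ 1 := by
    rintro rfl
    exact hk1 (Subsingleton.elim _ _)
  by_cases hkk : k' * k = 1
  · have hk'k : k' = k := by linear_combination k * hkk - k' * hs.1
    rw [hkk] at hcomp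
    obtain ⟨h1, h2, -⟩ := Pool.Agent.R503.SIC.displ hψ hcomp
    obtain ⟨h3, h4, -⟩ := Pool.Agent.R503.SIC.displ hψ hs
    have h20 : IsUnit (2 : ZMod d) := by
      have : Nat.Coprime 2 d := (Nat.coprime_two_left).2 hd
      exact_mod_cast (ZMod.isUnit_iff_coprime 2 d).2 this
    rw [hk'k] at h1
    have h5 : 2 * (k * a + a') = 0 := by linear_combination h1
    have h6 : 2 * (b' * k + b) = 0 := by linear_combination h2
    rw [h20.mul_right_eq_zero] at h5 h6
    refine ⟨hk'k, by linear_combination h5 - h3, ?_⟩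
    have h7 : b' + b * k = 0 := by linear_combination k * h6 - b' * hs.1
    linear_combination h7 - h4
  · exfalso
    have hm1 : k' * k = -1 := by
      rcases hkn with h | h <;> rcases hkn' with h' | h'
      · exact absurd (by rw [h, h']; exact hnd) hkk
      · rw [h, h']; linear_combination -hnd
      · rw [h, h']; linear_combination -hnd
      · exact absurd (by rw [h, h']; linear_combination hnd) hkk
    obtain ⟨n'', hn'', hkn''⟩ := dil' hd hψ hcomp hkk
    have hnn' : n'' = n := by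
      have : n'' ^ 2 = n ^ 2 := by rw [hn, hn'']
      exact Nat.pow_left_injective (by norm_num : 2 ≠ 0) this
    rw [hnn', hm1] at hkn''
    have hn2 : 2 ≤ n := by
      by_contra h
      have : n ≤ 1 := by omega
      have : n ^ 2 ≤ 1 ^ 2 := Nat.pow_le_pow_left this 2
      have : 0 < d := hd.pos
      omega
    obtain ⟨i, rfl⟩ : ∃ i, n = i + 2 := ⟨n - 2, by omega⟩
    have hdi : d = (i + 1) * (i + 3) := by nlinarith
    rcases hkn'' with h | h
    · -- `-1 = n`
      have h8 : ((i + 2 + 1 : ℕ) : ZMod d) = 0 := by push_cast at h ⊢; linear_combination -h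
      have h9 := Nat.le_of_dvd (by omega) ((ZMod.natCast_eq_zero_iff _ _).1 h8)
      rw [hdi] at h9
      have hi : i = 0 := by
        by_contra hi
        have : 1 ≤ i := by omega
        nlinarith
      rw [hi] at hdi
      exact hd3 (by rw [hdi])
    · have h8 : ((i + 1 : ℕ) : ZMod d) = 0 := by push_cast at h ⊢; linear_combination h
      have h9 := Nat.le_of_dvd (by omega) ((ZMod.natCast_eq_zero_iff _ _).1 h8)
      rw [hdi] at h9
      nlinarith

/-- recentring a symmetric fiducial -/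
theorem translate' {d : ℕ} [NeZero d] {ψ : ZMod d → ℂ} {k a b : ZMod d} {c : ℂ}
    (hd : Odd d) (hψ : Fid ψ) (hs : Sym ψ k a b c) :
    ∃ φ : ZMod d → ℂ, Fid φ ∧ (∃ l : ℂ, ∀ j, φ (k * j) = l * φ j) ∧
      ∃ p q : ZMod d, ∀ x z, ov ψ x z = e (p * x + q * z) * ov φ x z := by
  obtain ⟨h1, h2, -⟩ := Pool.Agent.R503.SIC.displ hψ hs
  have h20 : IsUnit (2 : ZMod d) := by
    have : Nat.Coprime 2 d := (Nat.coprime_two_left).2 hd
    exact_mod_cast (ZMod.isUnit_iff_coprime 2 d).2 this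
  obtain ⟨w, hw⟩ := h20.exists_right_inv
  have hka : k * (w * a) = -(w * a) := by linear_combination w * h1
  have hkb : k * (w * b) = -(w * b) := by linear_combination w * h2
  have hov : ∀ x z, ov (fun j => e (w * b * j) * ψ (j + w * a)) x z =
      e (-(w * b * x) - z * (w * a)) * ov ψ x z := by
    intro x z
    unfold ov
    rw [Finset.mul_sum, ← Equiv.sum_comp (Equiv.addRight (w * a))
      (fun j => e (-(w * b * x) - z * (w * a)) * (conj (ψ (j + x)) * (e (z * j) * ψ j)))]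
    apply Finset.sum_congr rfl
    intro j _
    simp only [Equiv.coe_addRight]
    rw [map_mul, Pool.Agent.R503.SIC.conj_e]
    have e1 : j + x + w * a = j + w * a + x := by ring
    rw [e1]
    have e2 : e (-(w * b * (j + x))) * e (z * j) * e (w * b * j) =
        e (-(w * b * x) - z * (w * a)) * e (z * (j + w * a)) := by
      rw [← Pool.Agent.R503.SIC.e_add, ← Pool.Agent.R503.SIC.e_add,
        ← Pool.Agent.R503.SIC.e_add]
      congr 1; ring
    linear_combination conj (ψ (j + w * a + x)) * ψ (j + w * a) * e2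
  refine ⟨fun j => e (w * b * j) * ψ (j + w * a), ⟨?_, ?_⟩, ⟨c * e (b * (w * a)), ?_⟩,
    w * b, w * a, ?_⟩
  · rw [← hψ.1, ← Equiv.sum_comp (Equiv.addRight (w * a)) (fun j => ‖ψ j‖ ^ 2)]
    apply Finset.sum_congr rfl
    intro j _
    rw [norm_mul, Pool.Agent.R503.SIC.norm_e, one_mul]
    rfl
  · intro x z hxz
    rw [hov, norm_mul, Pool.Agent.R503.SIC.norm_e, one_mul]
    exact hψ.2 x z hxz
  · intro j
    have e1 : k * j + w * a = k * (j + w * a) + a := by
      linear_combination -hka + a * hw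
    show e (w * b * (k * j)) * ψ (k * j + w * a) = _
    rw [e1, hs.2 (j + w * a)]
    have e2 : e (w * b * (k * j)) * e (b * (j + w * a)) = e (b * (w * a)) * e (w * b * j) := by
      rw [← Pool.Agent.R503.SIC.e_add, ← Pool.Agent.R503.SIC.e_add]
      congr 1
      linear_combination j * hkb - b * j * hw
    linear_combination c * ψ (j + w * a) * e2
  · intro x z
    rw [hov, ← mul_assoc, ← Pool.Agent.R503.SIC.e_add]
    have e1 : w * b * x + w * a * z + (-(w * b * x) - z * (w * a)) = 0 := by ring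
    rw [e1, Pool.Agent.R503.SIC.e_zero, one_mul]

/-- the overlaps inverted by an involutive symmetry -/
theorem shape' {d : ℕ} [NeZero d] (hd : Odd d) {ψ : ZMod d → ℂ} (hψ : Fid ψ) {k a b : ZMod d}
    {c : ℂ} (hs : Sym ψ k a b c) (hk1 : k ≠ 1) :
    ∃ (n : ℕ) (p q : ZMod d), n ^ 2 = d + 1 ∧
      ((k = -n ∧ ∀ x z : ZMod d, k * x = -x → k * z = -z → (x, z) ≠ (0, 0) →
          ov ψ (2 * x) z = e (p * x + q * z - x * z) * (1 / n)) ∨
        (k = n ∧ ∀ x z : ZMod d, k * x = -x → k * z = -z → (x, z) ≠ (0, 0) →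
          ov ψ (2 * x) z = e (p * x + q * z - x * z) * (-1 / n)) ∨
        (k = n ∧ ∃ L : AddSubgroup (ZMod d × ZMod d), Nat.card L = n + 1 ∧
          (∀ v ∈ L, k * v.1 = -v.1 ∧ k * v.2 = -v.2) ∧
          (∀ v ∈ L, ∀ w ∈ L, v.1 * w.2 = v.2 * w.1) ∧
          ∀ x z : ZMod d, k * x = -x → k * z = -z → (x, z) ≠ (0, 0) →
            ((x, z) ∈ L → ov ψ (2 * x) z = e (p * x + q * z - x * z) * (-1 / n)) ∧
            ((x, z) ∉ L → ov ψ (2 * x) z = e (p * x + q * z - x * z) * (1 / n)))) := by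
  obtain ⟨φ, hφ, ⟨l, hl⟩, p, q, hpq⟩ := translate' hd hψ hs
  obtain ⟨n, hn, h⟩ := shape hd hφ hs.1 hl hk1
  have key : ∀ (x z : ZMod d) (t : ℂ), ov φ (2 * x) z = e (-(z * x)) * t →
      ov ψ (2 * x) z = e (2 * p * x + q * z - x * z) * t := by
    intro x z t ht
    rw [hpq, ht, ← mul_assoc, ← Pool.Agent.R503.SIC.e_add]
    congr 2
    ring
  refine ⟨n, 2 * p, q, hn, ?_⟩
  rcases h with ⟨e1, -, e3⟩ | ⟨e1, -, e3⟩ | ⟨e1, -, L, e3, e4, e5, e6⟩
  · exact Or.inl ⟨e1, fun x z hx hz hxz => key x z _ (e3 x z hx hz hxz)⟩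
  · exact Or.inr (Or.inl ⟨e1, fun x z hx hz hxz => key x z _ (e3 x z hx hz hxz)⟩)
  · exact Or.inr (Or.inr ⟨e1, L, e3, e4, e5, fun x z hx hz hxz =>
      ⟨fun h => key x z _ ((e6 x z hx hz hxz).1 h), fun h => key x z _ ((e6 x z hx hz hxz).2 h)⟩⟩)

end Pool.Agent.helper391_IR
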